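import Pool.Agent.H15.G.R_pool_sql_team_seeded_9f66d723.W71.NN.Sub

/-! Composition: systems of grouped points. -/

set_option autoImplicit false

namespace Pool.Agent.W71.NN

open Finset Pool.Agent.TH176.Nag Pool.Agent.TH603.Sur Pool.Agent.TH641.UM Pool.Agent.TH2.NU
open Pool.Agent.TH545.SD

theorem good_of_all {v : Multiset ℕ} (h : ∀ d, Ns d v) : Good v :=
  ⟨fun w hw d => (h d).out w hw⟩

theorem Good.ns {v : Multiset ℕ} (h : Good v) (d : ℕ) : Ns d v :=
  ⟨fun w hw => h.out w hw d⟩

/-- points of multiplicity `0` do not matter -/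
theorem Ns_zeros {d z : ℕ} {v : Multiset ℕ} : Ns d (v + z • {0}) ↔ Ns d v := by
  have hc : co (v + z • {0}) = co v := by
    rw [co_add]
    have : co (z • ({0} : Multiset ℕ)) = 0 := by
      rw [← ms_fin, co_ms]
      unfold Pool.Agent.TH603.Sur.cond
      simp
    omega
  rw [Ns_iff, Ns_iff, hc]
  refine forall_congr' fun p => imp_congr_right fun _ => ?_
  constructor
  · intro h
    have e : ms (Sum.elim (fun i : Fin (v + p • {1}).toList.length => (v + p • {1}).toList.get i)
        (fun _ : Fin z => 0)) = v + z • {0} + p • {1} := by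
      rw [ms_sum, ms_fin, Pool.Agent.TH641.UM.exists_fam]
      abel
    have h1 := (EmpM_iff e _).1 h
    have h2 := Emp_drop (S := TZ d) Sum.inl (fun k hk => by
      rcases k with k | k
      · exact ⟨k, rfl⟩
      · exact absurd rfl hk) h1
    exact h2
  · intro h
    refine h.mono ?_
    have e : v + z • ({0} : Multiset ℕ) + p • {1} = (v + p • {1}) + z • {0} := by abel
    rw [e]
    exact Multiset.le_add_right _ _

/-- **Composition** for multisets. -/
theorem Ns_compose {r d : ℕ} (C : Fin r → Multiset ℕ) (m : Fin r → ℕ) (hm : ∀ j, 1 ≤ m j)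
    (h0 : ∀ j, Ns (m j - 1) (C j)) (h1 : ∀ j, Ns (m j) (C j))
    (lo : ∀ j, (m j + 1).choose 2 ≤ co (C j)) (hi : ∀ j, co (C j) ≤ (m j + 2).choose 2)
    (e : Multiset ℕ)
    (H : ∀ x : Fin r → ℕ, (∀ j, (x j = m j ∧ co (C j) < (m j + 2).choose 2) ∨
      (x j = m j + 1 ∧ (m j + 1).choose 2 < co (C j))) → Ns d (ms x + e)) :
    Ns d (∑ j, C j + e) := by
  classical
  have key : ∀ s : Finset (Fin r), ∀ x : Fin r → ℕ, (∀ j, (x j = m j ∧ co (C j) < (m j + 2).choose 2) ∨
      (x j = m j + 1 ∧ (m j + 1).choose 2 < co (C j))) →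
      Ns d (∑ j ∈ s, C j + (∑ j ∈ univ \ s, {x j} + e)) := by
    intro s
    induction s using Finset.induction_on with
    | empty =>
      intro x hx
      rw [sum_empty, zero_add, sdiff_empty]
      exact H x hx
    | insert a s ha ih =>
      intro x hx
      have ea : univ \ s = insert a (univ \ insert a s) := by
        ext i
        simp only [mem_sdiff, mem_univ, true_and, mem_insert]
        by_cases hia : i = a
        · subst hia
          simp [ha]
        · simp [hia]
      have hna : a ∉ univ \ insert a s := by simp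
      -- the system with the value `t` at `a`
      have step : ∀ t, ((t = m a ∧ co (C a) < (m a + 2).choose 2) ∨
          (t = m a + 1 ∧ (m a + 1).choose 2 < co (C a))) →
          Ns d (t ::ₘ (∑ j ∈ s, C j + (∑ j ∈ univ \ insert a s, {x j} + e))) := by
        intro t ht
        have h2 := ih (Function.update x a t) (by
          intro j
          rcases eq_or_ne j a with rfl | hj
          · rw [Function.update_self]
            exact ht
          · rw [Function.update_of_ne hj]
            exact hx j)
        rw [ea, sum_insert hna, Function.update_self] at h2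
        have e1 : ∑ j ∈ univ \ insert a s, ({Function.update x a t j} : Multiset ℕ) =
            ∑ j ∈ univ \ insert a s, {x j} := by
          refine sum_congr rfl fun j hj => ?_
          rw [Function.update_of_ne]
          rintro rfl
          exact hna hj
        rw [e1] at h2
        have e2 : ∑ j ∈ s, C j + ({t} + ∑ j ∈ univ \ insert a s, {x j} + e) =
            t ::ₘ (∑ j ∈ s, C j + (∑ j ∈ univ \ insert a s, {x j} + e)) := by
          rw [← Multiset.singleton_add]
          abel
        rw [e2] at h2
        exact h2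
      rw [sum_insert ha, add_assoc]
      rcases (lo a).eq_or_lt with hl | hl
      · -- exactly the conditions of `m a`
        refine Ns.exact (hm a) (h0 a) hl.symm (step (m a) (Or.inl ⟨rfl, ?_⟩))
        have e2 : (m a + 2).choose 2 = (m a + 1).choose 2 + (m a + 1) := by
          rw [Nat.choose_succ_succ' (m a + 1) 1, Nat.choose_one_right]
          ring
        omega
      · rcases (hi a).eq_or_lt with hh | hh
        · refine Ns.exact (b := m a + 1) (by omega) ?_ hh (step (m a + 1) (Or.inr ⟨rfl, hl⟩))
          have e1 : m a + 1 - 1 = m a := by omega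
          rw [e1]
          exact h1 a
        · exact Ns.subst (hm a) (h0 a) (h1 a) hl.le hh.le (step (m a) (Or.inl ⟨rfl, hh⟩))
            (step (m a + 1) (Or.inr ⟨rfl, hl⟩))
  have hx0 : ∀ j, ∃ t, (t = m j ∧ co (C j) < (m j + 2).choose 2) ∨
      (t = m j + 1 ∧ (m j + 1).choose 2 < co (C j)) := by
    intro j
    have e2 : (m j + 2).choose 2 = (m j + 1).choose 2 + (m j + 1) := by
      rw [Nat.choose_succ_succ' (m j + 1) 1, Nat.choose_one_right]
      ring
    rcases (hi j).eq_or_lt with hh | hh
    · exact ⟨m j + 1, Or.inr ⟨rfl, by omega⟩⟩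
    · exact ⟨m j, Or.inl ⟨rfl, hh⟩⟩
  choose x hx using hx0
  have h2 := key univ x hx
  rw [Finset.sdiff_self, sum_empty, zero_add] at h2
  exact h2

/-- grouping a vector -/
theorem sum_groups {n r : ℕ} (w : Fin n → ℕ) (g : Fin n → Fin r) :
    ∑ j, ∑ i ∈ univ.filter (fun i => g i = j), ({w i} : Multiset ℕ) = ms w := by
  unfold ms
  exact sum_fiberwise univ g fun i => ({w i} : Multiset ℕ)

theorem ms_group {n r : ℕ} (w : Fin n → ℕ) (g : Fin n → Fin r) (j : Fin r) :
    ms (fun i => if g i = j then w i else 0) =
      ∑ i ∈ univ.filter (fun i => g i = j), ({w i} : Multiset ℕ) +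
        (univ.filter fun i => ¬ g i = j).card • {0} := by
  unfold ms
  rw [← sum_filter_add_sum_filter_not univ (fun i => g i = j)]
  congr 1
  · refine sum_congr rfl fun i hi => ?_
    simp only [if_pos (mem_filter.1 hi).2]
  · rw [← sum_const]
    refine sum_congr rfl fun i hi => ?_
    simp only [if_neg (mem_filter.1 hi).2]

theorem Ns_group {n r : ℕ} (w : Fin n → ℕ) (g : Fin n → Fin r) (j : Fin r) {d : ℕ} :
    Ns d (ms fun i => if g i = j then w i else 0) ↔
      Ns d (∑ i ∈ univ.filter (fun i => g i = j), ({w i} : Multiset ℕ)) := by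
  rw [ms_group, Ns_zeros]

theorem co_group {n r : ℕ} (w : Fin n → ℕ) (g : Fin n → Fin r) (j : Fin r) :
    co (∑ i ∈ univ.filter (fun i => g i = j), ({w i} : Multiset ℕ)) =
      ∑ i, ((if g i = j then w i else 0) + 1).choose 2 := by
  have h1 : co (ms fun i => if g i = j then w i else 0) =
      ∑ i, ((if g i = j then w i else 0) + 1).choose 2 := co_ms _
  rw [← h1, ms_group, co_add]
  have : co ((univ.filter fun i => ¬ g i = j).card • ({0} : Multiset ℕ)) = 0 := by
    rw [← ms_fin, co_ms]
    unfold Pool.Agent.TH603.Sur.cond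
    simp
  omega

/-- all near-uniform systems with four points -/
theorem good_four {μ : ℕ} {v : Multiset ℕ} (hμ : 1 ≤ μ) (hc : v.card = 4)
    (hv : ∀ y ∈ v, y = μ ∨ y = μ + 1) : Good v := by
  have hpt : ∀ b, Good ({b} : Multiset ℕ) := fun b => good_of_all fun d => ⟨GD.point d b⟩
  have hq : ∀ b, 1 ≤ b → Good (quarters b) := by
    intro b hb
    have h1 : Good (b ::ₘ 0) := hpt b
    have h2 := Good.one hb h1
    rwa [add_zero] at h2
  have hh : ∀ b, 1 ≤ b → Good (halves b) := by
    intro b hb
    have h1 : Good (1 • {b} + 0) := by rw [one_smul, add_zero]; exact hpt b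
    have h2 : Good (1 • {b + 1} + 0) := by rw [one_smul, add_zero]; exact hpt (b + 1)
    have h3 := Good.four le_rfl hb h1 h2
    rwa [one_smul, add_zero] at h3
  obtain ⟨i, j, rfl⟩ := bal hv
  have hij : i + j = 4 := by simpa using hc
  have hsum : (i • ({μ} : Multiset ℕ) + j • {μ + 1}).sum = 4 * μ + j := by
    simp only [Multiset.sum_add, Multiset.sum_nsmul, Multiset.sum_singleton, smul_eq_mul]
    have : i * μ + j * (μ + 1) = (i + j) * μ + j := by ring
    rw [this, hij]
  have hj : j = 0 ∨ j = 1 ∨ j = 2 ∨ j = 3 ∨ j = 4 := by omega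
  have e1 := fun b (hb : 1 ≤ b) => sum_quarters hb
  rcases hj with h | h | h | h | h
  · have e : i • ({μ} : Multiset ℕ) + j • {μ + 1} = halves (2 * μ) :=
      eq_of_bal (b := μ) (h := μ) hv (fun y hy => by have := mem_halves.1 hy; omega)
        (by rw [hc, card_halves]) (by rw [hsum, sum_halves]; omega)
    rw [e]
    exact hh _ (by omega)
  · have e : i • ({μ} : Multiset ℕ) + j • {μ + 1} = quarters (2 * μ + 1) :=
      eq_of_bal (b := μ) (h := μ) hv (fun y hy => by have := mem_quarters.1 hy; omega)
        (by rw [hc, card_quarters]) (by have := e1 (2 * μ + 1) (by omega); rw [hsum]; omega)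
    rw [e]
    exact hq _ (by omega)
  · have e : i • ({μ} : Multiset ℕ) + j • {μ + 1} = halves (2 * μ + 1) :=
      eq_of_bal (b := μ) (h := μ) hv (fun y hy => by have := mem_halves.1 hy; omega)
        (by rw [hc, card_halves]) (by rw [hsum, sum_halves]; omega)
    rw [e]
    exact hh _ (by omega)
  · have e : i • ({μ} : Multiset ℕ) + j • {μ + 1} = quarters (2 * μ + 2) :=
      eq_of_bal (b := μ) (h := μ) hv (fun y hy => by have := mem_quarters.1 hy; omega)
        (by rw [hc, card_quarters]) (by have := e1 (2 * μ + 2) (by omega); rw [hsum]; omega)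
    rw [e]
    exact hq _ (by omega)
  · have e : i • ({μ} : Multiset ℕ) + j • {μ + 1} = halves (2 * μ + 2) :=
      eq_of_bal (b := μ) (h := μ + 1) hv (fun y hy => by have := mem_halves.1 hy; omega)
        (by rw [hc, card_halves]) (by rw [hsum, sum_halves]; omega)
    rw [e]
    exact hh _ (by omega)

end Pool.Agent.W71.NN
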