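import Mathlib

set_option autoImplicit false

/-! The choice of `p` in the middle case, with `c` points of multiplicity `m`. -/

namespace Pool.Agent.W71.NN

/-- the middle case; `y` is the degree in the normalised form, `L` the length of the window -/
theorem mid {a c n m B d x0 x2 : ℕ} {s y LE LS : ℝ} (hn : n = 4 * a + c) (hc : c ≤ 5) (ha : 23 ≤ a)
    (hB : 77 * a ≤ 20 * B) (hm1 : 2 * m ≤ B) (hm2 : B ≤ 2 * m + 2) (hx : x0 + x2 ≤ a) (h0 : 2 ≤ x0)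
    (hs : s * s = n)
    (hy : y = s * (2 * d + 3) - (4 * a * B + 2 * a + c + 2 * c * m))
    (hcrit : |y - 2 * ((x2 : ℝ) - x0)| ≤ 13 / 5)
    (hLS : LS + 1 ≤ LE) (h2 : LE + 4.2 < 2 * x2) :
    ∃ p : ℕ, p + 1 ≤ x0 ∧
      (d + 1) * (d + 2) + 2 * (p * B) ≤
        2 * ((B + 1) / 2 * x2) + (a * (B * (B + 1)) + c * (m * (m + 1))) ∧
      2 * ((B + 1) / 2 * x2) + (a * (B * (B + 1)) + c * (m * (m + 1))) ≤
        (d + 1) * (d + 2) + 2 * ((p + 1) * B) ∧
      LS - 4 * (p : ℝ) < y ∧ y + LE < 4 * ((x2 : ℝ) - (p + 1)) := by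
  have ha' : (23 : ℝ) ≤ a := by exact_mod_cast ha
  have hc' : (c : ℝ) ≤ 5 := by exact_mod_cast hc
  have hc0 : (0 : ℝ) ≤ c := Nat.cast_nonneg _
  have hB' : 77 * (a : ℝ) ≤ 20 * B := by exact_mod_cast hB
  have hx' : (x0 : ℝ) + x2 ≤ a := by exact_mod_cast hx
  have hn' : (n : ℝ) = 4 * a + c := by rw [hn]; push_cast; ring
  have h0' : (2 : ℝ) ≤ x0 := by exact_mod_cast h0
  obtain ⟨hc1, hc2⟩ := abs_le.1 hcrit
  have hx2 : (0 : ℝ) ≤ x2 := Nat.cast_nonneg _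
  obtain ⟨q, hq⟩ : ∃ q : ℕ, q = (B + 1) / 2 := ⟨_, rfl⟩
  rw [← hq]
  have hq1 : (B : ℝ) ≤ 2 * q := by exact_mod_cast (by omega : B ≤ 2 * q)
  have hq2 : 2 * (q : ℝ) ≤ B + 1 := by exact_mod_cast (by omega : 2 * q ≤ B + 1)
  have hBpos : (0 : ℝ) < B := by linarith
  have hnpos : (0 : ℝ) < n := by linarith
  obtain ⟨e, he⟩ : ∃ e : ℝ, e = 2 * B - 4 * m - 1 := ⟨_, rfl⟩
  have he1 : -1 ≤ e := by
    have : 2 * (m : ℝ) ≤ B := by exact_mod_cast hm1
    linarith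
  have he2 : e ≤ 3 := by
    have : (B : ℝ) ≤ 2 * m + 2 := by exact_mod_cast hm2
    linarith
  have hee : e ^ 2 ≤ 9 := by nlinarith
  obtain ⟨C, hCdef⟩ : ∃ C : ℤ, C = 2 * ((q : ℤ) * x2) + (a * (B * (B + 1)) + c * (m * (m + 1))) -
      (d + 1) * (d + 2) := ⟨_, rfl⟩
  have hC : 4 * (n : ℝ) * C = 8 * n * q * x2 - y * (n * (2 * B + 1) - c * e) - y ^ 2 + a * c * e ^ 2 -
      n * (a + c) + n := by
    have hys : y + (4 * a * B + 2 * a + c + 2 * c * m) = s * (2 * d + 3) := by rw [hy]; ring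
    have h1 : n * (2 * (d : ℝ) + 3) ^ 2 = (y + (4 * a * B + 2 * a + c + 2 * c * m)) ^ 2 := by
      rw [hys, ← hs]; ring
    have h2 : 4 * (n : ℝ) * ((d + 1) * (d + 2)) = (y + (4 * a * B + 2 * a + c + 2 * c * m)) ^ 2 - n := by
      rw [← h1]; ring
    rw [hCdef]
    push_cast
    have e1 : 4 * (n : ℝ) * (2 * (q * x2) + (a * (B * (B + 1)) + c * (m * (m + 1))) - (d + 1) * (d + 2)) =
        8 * n * q * x2 + 4 * n * (a * (B * (B + 1)) + c * (m * (m + 1))) -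
          4 * n * ((d + 1) * (d + 2)) := by ring
    rw [e1, h2, he, hn']
    ring
  -- bounds of `y`
  have hy1 : y ≤ 2 * ((x2 : ℝ) - x0) + 13 / 5 := by linarith
  have hy2 : 2 * ((x2 : ℝ) - x0) - 13 / 5 ≤ y := by linarith
  have hya : y ≤ 2 * a := by linarith
  have hyb : -(2 * (a : ℝ) + 13 / 5) ≤ y := by linarith
  have hyy : y ^ 2 ≤ (2 * (a : ℝ) + 13 / 5) ^ 2 := sq_le_sq' (by linarith) (by linarith)
  have hye1 : y * e ≤ 3 * (2 * a + 13 / 5) := by nlinarith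
  have hye2 : -(3 * (2 * (a : ℝ) + 13 / 5)) ≤ y * e := by nlinarith
  have hcye1 : c * (y * e) ≤ y ^ 2 + 57 := by
    nlinarith [sq_nonneg (2 * y - c * e), mul_nonneg hc0 hc0, sq_nonneg e]
  have hcye2 : -(15 * (2 * (a : ℝ) + 13 / 5)) ≤ c * (y * e) := by nlinarith
  have hU : (C : ℝ) ≤ B * x2 - B * y / 2 + 0.1 * B := by
    have h1 : 4 * (n : ℝ) * C ≤ 4 * n * (B * x2 - B * y / 2 + 0.1 * B) := by
      rw [hC]
      have e1 : 8 * (n : ℝ) * q * x2 ≤ 4 * n * (B + 1) * x2 := by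
        have := mul_le_mul_of_nonneg_right hq2 (mul_nonneg hnpos.le hx2)
        linarith
      have e2 : a * c * e ^ 2 ≤ n * (9 * c / 4) := by
        have f1 : a * c * e ^ 2 ≤ a * c * 9 := mul_le_mul_of_nonneg_left hee (by positivity)
        have f2 : (a : ℝ) * c * 9 ≤ n * (9 * c / 4) := by rw [hn']; nlinarith
        linarith
      have e3 : (57 : ℝ) ≤ n * 0.7 := by rw [hn']; linarith
      have e4 : 4 * x2 - y + 0.7 + 9 * c / 4 - (a + c) + 1 ≤ 0.4 * B := by linarith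
      have e5 := mul_le_mul_of_nonneg_left e4 hnpos.le
      linarith
    exact le_of_mul_le_mul_left h1 (by positivity)
  have hL : B * x2 - B * y / 2 - 0.4 * B ≤ (C : ℝ) := by
    have h1 : 4 * (n : ℝ) * (B * x2 - B * y / 2 - 0.4 * B) ≤ 4 * n * C := by
      rw [hC]
      have e1 : 4 * (n : ℝ) * B * x2 ≤ 8 * n * q * x2 := by
        have := mul_le_mul_of_nonneg_right hq1 (mul_nonneg hnpos.le hx2)
        linarith
      have e2 : y ^ 2 ≤ n * (a + 3) := by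
        have f1 : (2 * (a : ℝ) + 13 / 5) ^ 2 ≤ n * (a + 3) := by rw [hn']; nlinarith
        linarith
      have e3 : 15 * (2 * (a : ℝ) + 13 / 5) ≤ n * 8.5 := by rw [hn']; nlinarith
      have e6 : 0 ≤ (a : ℝ) * c * e ^ 2 := by positivity
      have e4 : y + (a + 3) + 8.5 + (a + c) - 1 ≤ 1.6 * B := by linarith
      have e5 := mul_le_mul_of_nonneg_left e4 hnpos.le
      linarith
    exact le_of_mul_le_mul_left h1 (by positivity)
  have hC0r : (0 : ℝ) ≤ C := by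
    refine le_trans ?_ hL
    have : 0 ≤ (B : ℝ) * (x2 - y / 2 - 0.4) := by
      apply mul_nonneg hBpos.le
      linarith
    linarith
  have hC0 : 0 ≤ C := by exact_mod_cast hC0r
  have hB2 : (0 : ℤ) < 2 * B := by
    have : 0 < B := by omega
    omega
  obtain ⟨p, hp⟩ : ∃ p : ℕ, (p : ℤ) = C / (2 * B) :=
    ⟨(C / (2 * B)).toNat, Int.toNat_of_nonneg (Int.ediv_nonneg hC0 hB2.le)⟩
  have hp1 : 2 * (B : ℤ) * p ≤ C := by
    rw [hp]; exact Int.mul_ediv_self_le hB2.ne'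
  have hp2 : C < 2 * (B : ℤ) * (p + 1) := by
    rw [hp]
    have := Int.lt_ediv_add_one_mul_self C hB2
    linarith
  have hp1r : 2 * (B : ℝ) * p ≤ C := by exact_mod_cast hp1
  have hp2r : (C : ℝ) < 2 * (B : ℝ) * (p + 1) := by exact_mod_cast hp2
  have hpa : 4 * (p : ℝ) ≤ 2 * x2 - y + 0.2 := by
    have h1 : (B : ℝ) * (4 * p) ≤ B * (2 * x2 - y + 0.2) := by linarith
    exact le_of_mul_le_mul_left h1 hBpos
  have hpb : 2 * (x2 : ℝ) - y - 0.8 < 4 * (p + 1) := by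
    have h1 : (B : ℝ) * (2 * x2 - y - 0.8) < B * (4 * (p + 1)) := by linarith
    exact lt_of_mul_lt_mul_left h1 hBpos.le
  refine ⟨p, ?_, ?_, ?_, ?_, ?_⟩
  · have : (p : ℝ) < x0 := by linarith
    have : p < x0 := by exact_mod_cast this
    omega
  · zify
    rw [hCdef] at hp1
    linarith
  · zify
    rw [hCdef] at hp2
    linarith
  · linarith
  · linarith

end Pool.Agent.W71.NN
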