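import Pool.Agent.H15.G.R_seed8.TH2.NU.Crit
import Pool.Agent.H15.G.R_pool_sql_team_seeded_9f66d723.W71.NN.Win
import Pool.Agent.H15.G.R_pool_sql_team_seeded_9f66d723.W71.NN.Mid

/-! The three cases of the sign theorem, with `c` points of multiplicity `m` besides the clusters. -/

namespace Pool.Agent.W71.NN

open Finset Pool.Agent.TH176.Nag Pool.Agent.TH603.Sur Pool.Agent.TH763.DB Module Pool.Agent.TH641.UM
open Pool.Agent.TH2.NU Pool.Agent.TH760.EN

/-- the data: `n = 4 a + c` points, `a` clusters of base multiplicity `b`, `c` points of multiplicity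
`m`; `n = 4 σ + t` -/
structure Dat (a c n σ t m b : ℕ) : Prop where
  hE : HE c
  hS : HS c
  hn : n = 4 * a + c
  hσ : n = 4 * σ + t
  t1 : 1 ≤ t
  t4 : t ≤ 4
  hc : c ≤ 5
  ha : 23 ≤ a
  hB : 77 * a ≤ 20 * (b + 1)
  hm1 : 2 * m ≤ b + 1
  hm2 : b ≤ 2 * m + 1

/-- the normalised degree -/
noncomputable def yy (a c n m b d : ℕ) : ℝ :=
  √(n : ℝ) * (2 * d + 3) - (4 * a * ((b + 1 : ℕ) : ℝ) + 2 * a + c + 2 * c * m)

/-- the length of the window `Emp` -/
noncomputable def lE (c n t : ℕ) : ℝ := 2 * √(n : ℝ) / 3 + 1 / 2 + t + c / 2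

/-- the length of the window `Sur` -/
noncomputable def lS (c n : ℕ) : ℝ := 2 * √(n : ℝ) / 3 + 1 / 2 + c / 2

variable {a c n σ t m b : ℕ}

/-- window `Emp`, multiset form -/
theorem EmpWc (D : Dat a c n σ t m b) {d p q r : ℕ} (h : p + q + r = a)
    (hwin : yy a c n m b d + lE c n t < 4 * ((r : ℝ) - p)) :
    EmpM (p • {b} + (q • {b + 1} + r • {b + 2}) + c • {m}) (TZ d) := by
  have hn' : (n : ℝ) = 4 * a + c := by rw [D.hn]; push_cast; ring
  have e : (a : ℝ) = p + q + r := by rw [← h]; push_cast; ring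
  have e2 : ((p * b + (q * (b + 1) + r * (b + 2)) : ℕ) : ℝ) =
      (a : ℝ) * ((b + 1 : ℕ) : ℝ) - p + r := by
    rw [e]
    push_cast
    ring
  refine (EmpM_iff (w := Sum.elim (Sum.elim (fun _ : Fin p => b) (Sum.elim (fun _ : Fin q => b + 1)
    (fun _ : Fin r => b + 2))) (fun _ : Fin c => m))
    (by rw [ms_sum, ms_sum, ms_sum, ms_fin, ms_fin, ms_fin, ms_fin]) _).2 ?_
  refine Emp_win_c (a := a) (n := n) (σ := σ) (t := t) D.hE ?_ (by have := D.ha; omega) D.hn D.hσ D.t1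
    D.t4 ?_ ?_
  · rw [Fintype.card_sum, Fintype.card_sum, Fintype.card_fin, Fintype.card_fin, Fintype.card_fin]
    omega
  · have h1 : a * b ≤ ∑ i, (Sum.elim (fun _ : Fin p => b) (Sum.elim (fun _ : Fin q => b + 1)
        (fun _ : Fin r => b + 2))) i := by
      rw [Fintype.sum_sum_type, Fintype.sum_sum_type]
      simp only [Sum.elim_inl, Sum.elim_inr, sum_const, card_univ, Fintype.card_fin, smul_eq_mul]
      rw [← h]
      nlinarith
    have h2 : ((a * b : ℕ) : ℝ) ≤ ((∑ i, (Sum.elim (fun _ : Fin p => b) (Sum.elim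
        (fun _ : Fin q => b + 1) (fun _ : Fin r => b + 2))) i : ℕ) : ℝ) := by exact_mod_cast h1
    have h3 : 77 * (a : ℝ) ≤ 20 * ((b : ℝ) + 1) := by exact_mod_cast D.hB
    have h4 : (23 : ℝ) ≤ a := by exact_mod_cast D.ha
    have h5 : (c : ℝ) ≤ 5 := by exact_mod_cast D.hc
    have h6 : (0 : ℝ) ≤ c := Nat.cast_nonneg _
    have h7 : (0 : ℝ) ≤ (c : ℝ) * m / 2 := by positivity
    refine le_trans ?_ (h2.trans (by linarith))
    rw [hn']
    push_cast
    nlinarith
  · rw [Fintype.sum_sum_type, Fintype.sum_sum_type]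
    simp only [Sum.elim_inl, Sum.elim_inr, sum_const, card_univ, Fintype.card_fin, smul_eq_mul]
    rw [e2]
    unfold yy lE at hwin
    rw [show (n : ℝ) / 2 = 2 * a + c / 2 by rw [hn']; ring]
    linarith

/-- window `Sur`, multiset form -/
theorem SurWc (D : Dat a c n σ t m b) {d p q : ℕ} (h : p + q = a)
    (hwin : lS c n - 4 * (p : ℝ) < yy a c n m b d) :
    SurM (p • {b} + q • {b + 1} + c • {m}) (TZ d) := by
  have hn' : (n : ℝ) = 4 * a + c := by rw [D.hn]; push_cast; ring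
  have e : (a : ℝ) = p + q := by rw [← h]; push_cast; ring
  refine (SurM_iff (w := Sum.elim (Sum.elim (fun _ : Fin p => b) (fun _ : Fin q => b + 1))
    (fun _ : Fin c => m)) (by rw [ms_sum, ms_sum, ms_fin, ms_fin, ms_fin]) _).2 ?_
  refine Sur_win_c (a := a) (n := n) (β := b) D.hS ?_ (by have := D.ha; omega) D.hn ?_ D.hm1 D.hm2 ?_
  · rw [Fintype.card_sum, Fintype.card_fin, Fintype.card_fin]
    omega
  · rintro (i | i)
    · exact Nat.le_succ _
    · exact le_refl _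
  · rw [Fintype.sum_sum_type]
    simp only [Sum.elim_inl, Sum.elim_inr, sum_const, card_univ, Fintype.card_fin, smul_eq_mul,
      max_self, max_eq_left (Nat.le_succ b)]
    have e2 : ((p * b + q * (b + 1) : ℕ) : ℝ) = (a : ℝ) * ((b + 1 : ℕ) : ℝ) - p := by
      rw [e]
      push_cast
      ring
    rw [e2]
    unfold yy lS at hwin
    rw [show (n : ℝ) / 2 = 2 * a + c / 2 by rw [hn']; ring]
    linarith

/-- the inner step -/
theorem innerc (D : Dat a c n σ t m b) {d x0 x1 x2 p : ℕ} (hx : x0 + x1 + x2 = a) (h2 : 0 < x2)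
    (hp : p ≤ x0) (hS : lS c n - 4 * (p : ℝ) < yy a c n m b d)
    (hE : yy a c n m b d + lE c n t < 4 * ((x2 : ℝ) - p)) :
    Sgn (x2 • q4 (b + 1) + (p • {b} + ((x0 - p) • {b + 1} + (x1 • r4 (b + 1) + c • {m})))) d := by
  refine Sgn_dbl h2 ?_ ?_
  · have h1 := SurWc D (p := p) (q := a - p) (by omega) hS
    have e : x2 • ({b + 1} : Multiset ℕ) + (p • {b} + ((x0 - p) • {b + 1} +
        (x1 • r4 (b + 1) + c • {m}))) =
        x1 • r4 (b + 1) + (x2 • ({b + 1} : Multiset ℕ) + (p • {b} + (x0 - p) • {b + 1}) + c • {m}) := by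
      abel
    rw [e]
    refine exMS (by omega) ?_
    have e2 : x1 • ({b + 1} : Multiset ℕ) + (x2 • ({b + 1} : Multiset ℕ) +
        (p • {b} + (x0 - p) • {b + 1}) + c • {m}) = p • {b} + (a - p) • {b + 1} + c • {m} := by
      have e3 : a - p = x1 + x2 + (x0 - p) := by omega
      rw [e3, add_smul, add_smul]
      abel
    rw [e2]
    exact h1
  · have h1 := EmpWc D (p := p) (q := x0 - p + x1) (r := x2) (by omega) hE
    have e : x2 • ({b + 1 + 1} : Multiset ℕ) + (p • {b} + ((x0 - p) • {b + 1} +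
        (x1 • r4 (b + 1) + c • {m}))) =
        x1 • r4 (b + 1) + (x2 • ({b + 1 + 1} : Multiset ℕ) + (p • {b} + (x0 - p) • {b + 1}) +
          c • {m}) := by
      abel
    rw [e]
    refine Pool.Agent.TH2.NU.exM' (by omega) ?_
    have e2 : x1 • ({b + 1} : Multiset ℕ) + (x2 • ({b + 1 + 1} : Multiset ℕ) +
        (p • {b} + (x0 - p) • {b + 1}) + c • {m}) =
        p • {b} + ((x0 - p + x1) • {b + 1} + x2 • {b + 2}) + c • {m} := by
      rw [add_smul]
      abel
    rw [e2]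
    exact h1

/-- case A -/
theorem caseAc (D : Dat a c n σ t m b) {d x0 x1 : ℕ} (hx : x0 + x1 = a) (h0 : 0 < x0)
    (hE : yy a c n m b d + lE c n t < 0) (hS : lS c n - 4 * (x0 : ℝ) < yy a c n m b d) :
    Sgn (x0 • q4 b + (x1 • r4 (b + 1) + c • {m})) d := by
  refine Sgn_dbl h0 ?_ ?_
  · have h1 := SurWc D hx hS
    have e : x0 • ({b} : Multiset ℕ) + (x1 • r4 (b + 1) + c • {m}) =
        x1 • r4 (b + 1) + (x0 • {b} + c • {m}) := by abel
    rw [e]
    refine exMS (by omega) ?_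
    have e2 : x1 • ({b + 1} : Multiset ℕ) + (x0 • {b} + c • {m}) =
        x0 • {b} + x1 • {b + 1} + c • {m} := by abel
    rw [e2]
    exact h1
  · have h1 := EmpWc D (d := d) (p := 0) (q := a) (r := 0) (by omega) (by
      push_cast
      linarith)
    rw [zero_smul, zero_smul, zero_add, add_zero] at h1
    have e : x0 • ({b + 1} : Multiset ℕ) + (x1 • r4 (b + 1) + c • {m}) =
        x1 • r4 (b + 1) + (x0 • {b + 1} + c • {m}) := by abel
    rw [e]
    refine Pool.Agent.TH2.NU.exM' (by omega) ?_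
    have e2 : x1 • ({b + 1} : Multiset ℕ) + (x0 • {b + 1} + c • {m}) = a • {b + 1} + c • {m} := by
      rw [← hx, add_smul]
      abel
    rw [e2]
    exact h1

/-- case B -/
theorem caseBc (D : Dat a c n σ t m b) {d x1 x2 : ℕ} (hx : x1 + x2 = a) (h2 : 0 < x2)
    (hE : yy a c n m b d + lE c n t < 4 * (x2 : ℝ)) (hS : lS c n < yy a c n m b d) :
    Sgn (x2 • q4 (b + 1) + (x1 • r4 (b + 1) + c • {m})) d := by
  have h := innerc D (d := d) (x0 := 0) (x1 := x1) (x2 := x2) (p := 0) (by omega) h2 le_rfl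
    (by push_cast; linarith) (by push_cast; linarith)
  simpa using h

/-- case C -/
theorem caseCc (D : Dat a c n σ t m b) {d x0 x1 x2 : ℕ} (hx : x0 + x1 + x2 = a) (h0 : 2 ≤ x0)
    (hcrit : |yy a c n m b d - 2 * ((x2 : ℝ) - x0)| ≤ 13 / 5)
    (h2 : lE c n t + 4.2 < 2 * x2) :
    Sgn (x0 • q4 b + (x1 • r4 (b + 1) + x2 • q4 (b + 1)) + c • {m}) d := by
  have hnR : (0 : ℝ) ≤ n := Nat.cast_nonneg n
  have hs0 := Real.sqrt_nonneg (n : ℝ)
  have hss : √(n : ℝ) * √(n : ℝ) = n := Real.mul_self_sqrt hnR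
  have t1 : (1 : ℝ) ≤ t := by exact_mod_cast D.t1
  have hcR : (0 : ℝ) ≤ c := Nat.cast_nonneg c
  have hlE : 0 ≤ lE c n t := by unfold lE; positivity
  have h2' : 0 < x2 := by
    have : (0 : ℝ) < x2 := by linarith
    exact_mod_cast this
  obtain ⟨p, hp, c1, c2, c3, c4⟩ := mid (a := a) (c := c) (n := n) (m := m) (B := b + 1) (d := d)
    (x0 := x0) (x2 := x2) (s := √(n : ℝ)) (y := yy a c n m b d) (LE := lE c n t) (LS := lS c n)
    D.hn D.hc D.ha D.hB D.hm1 (by have := D.hm2; omega) (by omega) h0 hss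
    (by unfold yy; ring) hcrit (by unfold lE lS; linarith) h2
  have i1 := innerc D (d := d) (p := p) hx h2' (by omega) c3 (by linarith)
  have i2 := innerc D (d := d) (p := p + 1) hx h2' hp (by push_cast; linarith) (by
    push_cast; linarith)
  have hcond : ∀ p, p ≤ x0 → 2 * Pool.Agent.TH2.NU.condM (x2 • q4 (b + 1) + (p • {b} + ((x0 - p) • {b + 1} +
      (x1 • r4 (b + 1) + c • {m})))) + 2 * (p * (b + 1)) = 2 * ((b + 1 + 1) / 2 * x2) +
        (a * ((b + 1) * (b + 1 + 1)) + c * (m * (m + 1))) := by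
    intro p hp
    obtain ⟨u, rfl⟩ := Nat.exists_eq_add_of_le hp
    rw [condM_add, condM_add, condM_add, condM_add, condM_smul, condM_smul, condM_smul, condM_smul,
      condM_smul, condM_q4,
      condM_r4 (by omega), condM_single, condM_single, condM_single, ← hx, Nat.add_sub_cancel_left]
    have e1 := two_choose b
    have e2 := two_choose (b + 1)
    have e4 := two_choose m
    obtain ⟨h, hh⟩ : ∃ h, h = (b + 1 + 1) / 2 := ⟨_, rfl⟩
    rw [← hh]
    have e3 : 2 * (x2 * ((b + 1 + 1).choose 2 + h) + (p * (b + 1).choose 2 + (u * (b + 1 + 1).choose 2 +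
        (x1 * (b + 1 + 1).choose 2 + c * (m + 1).choose 2)))) = x2 * (2 * (b + 1 + 1).choose 2) +
        2 * (h * x2) + p * (2 * (b + 1).choose 2) + u * (2 * (b + 1 + 1).choose 2) +
        x1 * (2 * (b + 1 + 1).choose 2) + c * (2 * (m + 1).choose 2) := by
      ring
    rw [e3, e1, e2, e4]
    ring
  have hk1 := hcond p (by omega)
  have hk2 := hcond (p + 1) hp
  have hd := two_choose' d
  have s1 := i1.1 (by omega)
  have s2 := i2.2 (by omega)
  have e0 : x0 • q4 b + (x1 • r4 (b + 1) + x2 • q4 (b + 1)) + c • ({m} : Multiset ℕ) =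
      x0 • q4 b + (x1 • r4 (b + 1) + x2 • q4 (b + 1) + c • {m}) := by abel
  rw [e0]
  refine Sgn_dbl (by omega) ?_ ?_
  · have e1 : x2 • q4 (b + 1) + ((p + 1) • {b} + ((x0 - (p + 1)) • {b + 1} +
        (x1 • r4 (b + 1) + c • {m}))) =
        (x0 - (p + 1)) • {b + 1} + (x2 • q4 (b + 1) + (p + 1) • {b} + x1 • r4 (b + 1) + c • {m}) := by
      abel
    rw [e1] at s2
    have s3 := s2.lower (Nat.le_succ b)
    have e2 : (x0 - (p + 1)) • ({b} : Multiset ℕ) + (x2 • q4 (b + 1) + (p + 1) • {b} +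
        x1 • r4 (b + 1) + c • {m}) =
        x0 • {b} + (x1 • r4 (b + 1) + x2 • q4 (b + 1) + c • {m}) := by
      have e3 : x0 • ({b} : Multiset ℕ) = (x0 - (p + 1)) • {b} + (p + 1) • {b} := by
        rw [← add_smul, Nat.sub_add_cancel hp]
      rw [e3]
      abel
    rw [e2] at s3
    exact s3
  · have e1 : x2 • q4 (b + 1) + (p • {b} + ((x0 - p) • {b + 1} + (x1 • r4 (b + 1) + c • {m}))) =
        p • {b} + (x2 • q4 (b + 1) + (x0 - p) • {b + 1} + x1 • r4 (b + 1) + c • {m}) := by abel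
    rw [e1] at s1
    have s3 := Pool.Agent.TH2.NU.EmpM.raise (Nat.le_succ b) s1
    have e2 : p • ({b + 1} : Multiset ℕ) + (x2 • q4 (b + 1) + (x0 - p) • {b + 1} +
        x1 • r4 (b + 1) + c • {m}) =
        x0 • {b + 1} + (x1 • r4 (b + 1) + x2 • q4 (b + 1) + c • {m}) := by
      have e3 : x0 • ({b + 1} : Multiset ℕ) = (x0 - p) • {b + 1} + p • {b + 1} := by
        rw [← add_smul, Nat.sub_add_cancel (by omega)]
      rw [e3]
      abel
    rw [e2] at s3
    exact s3

/-- the three cases together -/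
theorem sgn_allc (D : Dat a c n σ t m b) {d : ℕ} {δ : ℤ} (hδ : |δ| ≤ a)
    (hroom : 3 / 2 * lE c n t + 7.5 < a + 1)
    (hcrit : |yy a c n m b d - 2 * (δ : ℝ)| ≤ 13 / 5) :
    ∃ x0 x1 x2 : ℕ, x0 + x1 + x2 = a ∧ (x2 : ℤ) - x0 = δ ∧
      Sgn (x0 • q4 b + (x1 • r4 (b + 1) + x2 • q4 (b + 1)) + c • {m}) d := by
  have hs0 := Real.sqrt_nonneg (n : ℝ)
  have t1 : (1 : ℝ) ≤ t := by exact_mod_cast D.t1
  have hcR : (0 : ℝ) ≤ c := Nat.cast_nonneg c
  have hlE : 0 ≤ lE c n t := by unfold lE; positivity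
  have hlS : lS c n + 1 ≤ lE c n t := by unfold lE lS; linarith
  obtain ⟨L, hL⟩ : ∃ L, L = lE c n t := ⟨_, rfl⟩
  rw [← hL] at hroom hlE hlS
  have hcrit' := abs_le.1 hcrit
  rw [abs_le] at hδ
  rcases lt_or_ge (2 * (δ : ℝ)) (-(L + 13 / 5)) with h1 | h1
  · -- case A
    obtain ⟨x0, hx0⟩ : ∃ x0 : ℕ, (x0 : ℤ) = -δ := ⟨(-δ).toNat, by
      have : (δ : ℝ) ≤ 0 := by linarith
      have : δ ≤ 0 := by exact_mod_cast this
      omega⟩
    have hxR : (x0 : ℝ) = -δ := by exact_mod_cast hx0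
    refine ⟨x0, a - x0, 0, by omega, by omega, ?_⟩
    have h0 : 0 < x0 := by
      have : (0 : ℝ) < x0 := by rw [hxR]; linarith
      exact_mod_cast this
    have h := caseAc D (d := d) (x0 := x0) (x1 := a - x0) (by omega) h0 (by
      rw [← hL]; linarith [hcrit'.2]) (by rw [hxR]; linarith [hcrit'.1])
    have e : x0 • q4 b + ((a - x0) • r4 (b + 1) + 0 • q4 (b + 1)) + c • ({m} : Multiset ℕ) =
        x0 • q4 b + ((a - x0) • r4 (b + 1) + c • {m}) := by
      rw [zero_smul]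
      abel
    rw [e]
    exact h
  rcases lt_or_ge (L + 13 / 5) (2 * (δ : ℝ)) with h2 | h2
  · -- case B
    obtain ⟨x2, hx2⟩ : ∃ x2 : ℕ, (x2 : ℤ) = δ := ⟨δ.toNat, by
      have : 0 ≤ (δ : ℝ) := by linarith
      have : 0 ≤ δ := by exact_mod_cast this
      omega⟩
    have hxR : (x2 : ℝ) = δ := by exact_mod_cast hx2
    refine ⟨0, a - x2, x2, by omega, by omega, ?_⟩
    have h0 : 0 < x2 := by
      have : (0 : ℝ) < x2 := by rw [hxR]; linarith
      exact_mod_cast this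
    have h := caseBc D (d := d) (x1 := a - x2) (x2 := x2) (by omega) h0 (by
      rw [← hL, hxR]; linarith [hcrit'.2]) (by linarith [hcrit'.1])
    have e : 0 • q4 b + ((a - x2) • r4 (b + 1) + x2 • q4 (b + 1)) + c • ({m} : Multiset ℕ) =
        x2 • q4 (b + 1) + ((a - x2) • r4 (b + 1) + c • {m}) := by
      rw [zero_smul]
      abel
    rw [e]
    exact h
  · -- case C
    obtain ⟨k, hk⟩ : ∃ k : ℕ, k = ⌊(L + 4.2) / 2⌋₊ + 1 := ⟨_, rfl⟩
    have hk1 : (L + 4.2) / 2 < k := by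
      rw [hk]; push_cast; exact Nat.lt_floor_add_one _
    have hk2 : (k : ℝ) ≤ (L + 4.2) / 2 + 1 := by
      rw [hk]; push_cast
      have := Nat.floor_le (show 0 ≤ (L + 4.2) / 2 by linarith)
      linarith
    obtain ⟨x0, hx0⟩ : ∃ x0 : ℕ, (x0 : ℤ) = max (k - δ) 2 := ⟨(max ((k : ℤ) - δ) 2).toNat, by omega⟩
    obtain ⟨x2, hx2⟩ : ∃ x2 : ℕ, (x2 : ℤ) = x0 + δ := ⟨((x0 : ℤ) + δ).toNat, by omega⟩
    have hkx : k ≤ x2 := by omega
    have hsum : x0 + x2 ≤ a := by
      have h6 : (x0 : ℝ) + x2 < a + 1 := by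
        have e3 : (x2 : ℝ) = x0 + δ := by exact_mod_cast hx2
        rcases le_total ((k : ℤ) - δ) 2 with h7 | h7
        · rw [max_eq_right h7] at hx0
          have e2 : (x0 : ℝ) = 2 := by exact_mod_cast hx0
          rw [e3, e2]
          linarith
        · rw [max_eq_left h7] at hx0
          have e2 : (x0 : ℝ) = k - δ := by exact_mod_cast hx0
          rw [e3, e2]
          linarith
      have h5 : x0 + x2 < a + 1 := by exact_mod_cast h6
      omega
    refine ⟨x0, a - (x0 + x2), x2, by omega, by omega, ?_⟩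
    have hdiff : (x2 : ℝ) - x0 = δ := by
      have : (x2 : ℤ) - x0 = δ := by omega
      exact_mod_cast this
    have hkx' : (k : ℝ) ≤ x2 := by exact_mod_cast hkx
    refine caseCc D (by omega) (by omega) ?_ ?_
    · rw [hdiff]; exact hcrit
    · rw [← hL]; linarith

end Pool.Agent.W71.NN
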