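import Pool.Agent.H15.G.R_pool_sql_team_seeded_9f66d723.W71.NN.Grp
import Pool.Agent.H15.G.R_seed8.Y205.AV.Win
import Pool.Agent.H15.G.R_seed8.Y205.FW.Inf

/-! Few large multiplicities and arbitrary small ones. -/

set_option autoImplicit false

namespace Pool.Agent.W71.NN

open Finset Pool.Agent.TH176.Nag Pool.Agent.TH603.Sur Pool.Agent.TH641.UM Pool.Agent.TH2.NU
open Pool.Agent.TH545.SD

/-- the sum of the multiplicities is large -/
theorem good_big {h : ℕ} {v : Multiset ℕ} (hv : ∀ y ∈ v, y ≤ h)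
    (h1 : 25000 * (h + 1) ^ 2 ≤ v.sum) : Good v := by
  obtain ⟨k, u, rfl⟩ := Pool.Agent.TH545.SD.exists_fam v
  obtain ⟨F, hF, hF'⟩ := Pool.Agent.Y205.AV.big_vectors u
  refine ⟨Gd_of_expDim fun d => ⟨F, hF, fun P hP => hF' P hP d h (fun i => hv _ (mem_ms u i))
    (Or.inl ?_)⟩⟩
  have h2 : (ms u).sum = ∑ i, u i := by
    rw [Pool.Agent.Y205.AV.ms_pos]
    rfl
  omega

/-- few different multiplicities -/
theorem good_few {r μ : ℕ} {v : Multiset ℕ} (h0 : v ≠ 0) (hv : ∀ y ∈ v, 1 ≤ y ∧ y ≤ μ)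
    (hr : v.toFinset.card ≤ r) (hQ : 40000 * r * μ ^ 2 ≤ (v.map fun y => y ^ 2).sum) : Good v := by
  obtain ⟨k, u, rfl⟩ := Pool.Agent.TH545.SD.exists_fam v
  have hk : 0 < k := by
    rcases Nat.eq_zero_or_pos k with rfl | h
    · exact absurd (by unfold ms; simp) h0
    · exact h
  rw [Pool.Agent.Y205.AV.ms_pos] at hr hQ
  rw [Multiset.map_map] at hQ
  obtain ⟨F, hF, hF'⟩ := Pool.Agent.Y205.FW.inf_all (w := u) hk (fun i => (hv _ (mem_ms u i)).1)
    (fun i => (hv _ (mem_ms u i)).2) (r := r) hr hQ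
  exact ⟨Gd_of_expDim fun d => ⟨F, hF, fun P hP => hF' P hP d⟩⟩

/-- a part with a prescribed number of conditions -/
theorem exists_part {h A : ℕ} (hA : 1 ≤ A) : ∀ (S : Multiset ℕ), (∀ y ∈ S, y ≤ h) → A ≤ co S →
    ∃ C ≤ S, A ≤ co C ∧ co C < A + (h + 1).choose 2 := by
  intro S
  induction S using Multiset.induction_on with
  | empty =>
    intro _ h1
    rw [co_zero] at h1
    omega
  | cons a S ih =>
    intro hS h1
    by_cases h2 : A ≤ co S
    · obtain ⟨C, hC, h3⟩ := ih (fun y hy => hS y (Multiset.mem_cons_of_mem hy)) h2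
      exact ⟨C, hC.trans (Multiset.le_cons_self S a), h3⟩
    · refine ⟨a ::ₘ S, le_rfl, h1, ?_⟩
      rw [co_cons]
      have h3 := choose_mono' (hS a (Multiset.mem_cons_self a S))
      omega

theorem sum_le_co (S : Multiset ℕ) : S.sum ≤ co S := by
  induction S using Multiset.induction_on with
  | empty => simp
  | cons a S ih =>
    rw [co_cons, Multiset.sum_cons]
    have := le_choose' a
    omega

theorem two_choose (a : ℕ) : 2 * (a + 1).choose 2 = a * (a + 1) := by
  induction a with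
  | zero => simp
  | succ a ih =>
    have e2 : (a + 1 + 1).choose 2 = (a + 1).choose 2 + (a + 1) := by
      rw [Nat.choose_succ_succ' (a + 1) 1, Nat.choose_one_right]
      ring
    rw [e2, mul_add, ih]
    ring

theorem co_le_sum {h : ℕ} (S : Multiset ℕ) : (∀ y ∈ S, y ≤ h) → 2 * co S ≤ (h + 1) * S.sum := by
  induction S using Multiset.induction_on with
  | empty =>
    intro _
    simp [co_zero]
  | cons a S ih =>
    intro hS
    rw [co_cons, Multiset.sum_cons]
    have h1 := ih fun y hy => hS y (Multiset.mem_cons_of_mem hy)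
    have h2 := two_choose a
    have h3 := hS a (Multiset.mem_cons_self a S)
    nlinarith

theorem sq_le_co (S : Multiset ℕ) : (S.map fun y => y ^ 2).sum ≤ 2 * co S := by
  induction S using Multiset.induction_on with
  | empty => simp
  | cons a S ih =>
    rw [co_cons, Multiset.map_cons, Multiset.sum_cons]
    have h2 := two_choose a
    nlinarith

/-- **Small multiplicities are free.** -/
theorem good_peel {r s h μ : ℕ} (hs1 : 1 ≤ s) (hs2 : s ≤ μ) (V : Finset ℕ) (hV : V.card ≤ r + s + 1)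
    (hV1 : ∀ y ∈ V, 1 ≤ y ∧ y ≤ 2 * (μ + 1)) (hV2 : ∀ y, μ ≤ y → y ≤ μ + s → y ∈ V)
    (hh : h * (h + 1) ≤ 2 * s * (μ + 1)) (hb : 25000 * (h + 1) ^ 3 ≤ μ * (μ + 1)) :
    ∀ (N : ℕ) (S B : Multiset ℕ), S.card ≤ N → (∀ y ∈ S, 1 ≤ y ∧ y ≤ h) →
      (S = 0 ∨ 25000 * (h + 1) ^ 2 ≤ S.sum) → (∀ y ∈ B, y ∈ V) →
      2 * (160000 * (r + s + 2) * (μ + 1) ^ 2) + 2 * (μ + 1) ^ 2 ≤
        2 * (B.map fun y => y ^ 2).sum + co S → Good (S + B) := by
  have hhμ : h ≤ μ := by
    by_contra hcon
    push Not at hcon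
    have h1 : (μ + 1) ^ 3 ≤ (h + 1) ^ 3 := Nat.pow_le_pow_left (by omega) 3
    have h2 : (μ + 1) ^ 3 = μ * (μ + 1) + (μ ^ 3 + 2 * μ ^ 2 + 2 * μ + 1) := by ring
    omega
  -- systems with few different multiplicities
  have few : ∀ (B : Multiset ℕ) (t : ℕ), 1 ≤ t → t ≤ 2 * (μ + 1) → (∀ y ∈ B, y ∈ V) →
      160000 * (r + s + 2) * (μ + 1) ^ 2 ≤ (B.map fun y => y ^ 2).sum → Good (t ::ₘ B) ∧ Good B := by
    intro B t ht1 ht2 hB hQ
    have hB0 : B ≠ 0 := by
      rintro rfl
      rw [Multiset.map_zero, Multiset.sum_zero] at hQ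
      have : 0 < 160000 * (r + s + 2) * (μ + 1) ^ 2 := by positivity
      omega
    have e1 : 40000 * (r + s + 2) * (2 * (μ + 1)) ^ 2 = 160000 * (r + s + 2) * (μ + 1) ^ 2 := by ring
    have hc : B.toFinset ⊆ V := fun y hy => hB y (Multiset.mem_toFinset.1 hy)
    have hc2 : (t ::ₘ B).toFinset ⊆ insert t V := by
      intro y hy
      rcases Multiset.mem_cons.1 (Multiset.mem_toFinset.1 hy) with rfl | hy
      · exact mem_insert_self _ _
      · exact mem_insert_of_mem (hB y hy)
    constructor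
    · refine good_few (r := r + s + 2) (μ := 2 * (μ + 1)) (Multiset.cons_ne_zero) (fun y hy => ?_)
        ((card_le_card hc2).trans ((card_insert_le _ _).trans (by omega))) ?_
      · rcases Multiset.mem_cons.1 hy with rfl | hy
        · exact ⟨ht1, ht2⟩
        · exact hV1 y (hB y hy)
      · rw [e1, Multiset.map_cons, Multiset.sum_cons]
        omega
    · refine good_few (r := r + s + 2) (μ := 2 * (μ + 1)) hB0 (fun y hy => hV1 y (hB y hy))
        ((card_le_card hc).trans (by omega)) ?_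
      rw [e1]
      exact hQ
  have hch : 2 * (h + 1).choose 2 = h * (h + 1) := two_choose h
  have hcμ : 2 * (μ + 1).choose 2 = μ * (μ + 1) := two_choose μ
  have hμ0 : 1 ≤ μ := by omega
  have big : ∀ C : Multiset ℕ, (∀ y ∈ C, 1 ≤ y ∧ y ≤ h) → (μ + 1).choose 2 ≤ co C →
      25000 * (h + 1) ^ 2 ≤ C.sum := by
    intro C hC h1
    have h2 := co_le_sum (h := h) C fun y hy => (hC y hy).2
    have h3 : 25000 * (h + 1) ^ 3 ≤ (h + 1) * C.sum := by omega
    have h4 : (h + 1) * (25000 * (h + 1) ^ 2) ≤ (h + 1) * C.sum := by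
      calc (h + 1) * (25000 * (h + 1) ^ 2) = 25000 * (h + 1) ^ 3 := by ring
        _ ≤ _ := h3
    exact Nat.le_of_mul_le_mul_left h4 (Nat.succ_pos h)
  intro N
  induction N with
  | zero =>
    intro S B hN hS _ hB hQ
    have : S = 0 := Multiset.card_eq_zero.1 (by omega)
    subst this
    rw [zero_add]
    rw [co_zero] at hQ
    exact (few B 1 le_rfl (by omega) hB (by omega)).2
  | succ N ih =>
    intro S B hN hS hS2 hB hQ
    rcases hS2 with rfl | hS2
    · rw [zero_add]
      rw [co_zero] at hQ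
      exact (few B 1 le_rfl (by omega) hB (by omega)).2
    by_cases hc : co S < 2 * (μ + 1).choose 2 + (h + 1).choose 2
    · -- one cluster
      have hg : Good S := good_big (fun y hy => (hS y hy).2) hS2
      obtain ⟨t, ht1, ht2, ht3⟩ := exists_level (m := 1) (c := co S) (by
        have h1 := sum_le_co S
        have h2 : 1 ≤ (h + 1) ^ 2 := Nat.one_le_pow _ _ (Nat.succ_pos h)
        have h3 : (1 + 1).choose 2 = 1 := rfl
        omega)
      have ht4 : t + 1 ≤ 2 * (μ + 1) := by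
        by_contra hcon
        have h1 := choose_mono' (show 2 * μ + 2 ≤ t by omega)
        have h2 := two_choose (2 * μ + 2)
        have h3 : h * (h + 1) ≤ μ * (μ + 1) := Nat.mul_le_mul hhμ (by omega)
        have h4 : (2 * μ + 2) * (2 * μ + 2 + 1) = 4 * (μ * (μ + 1)) + 6 * μ + 6 := by ring
        rw [h4] at h2
        generalize μ * (μ + 1) = Z at *
        omega
      have hQ2 : 160000 * (r + s + 2) * (μ + 1) ^ 2 ≤ (B.map fun y => y ^ 2).sum := by
        have h3 : h * (h + 1) ≤ μ * (μ + 1) := Nat.mul_le_mul hhμ (by omega)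
        have h4 : 3 * (μ * (μ + 1)) ≤ 4 * (μ + 1) ^ 2 := by
          have h5 : μ * (μ + 1) ≤ (μ + 1) * (μ + 1) := Nat.mul_le_mul_right _ (by omega)
          rw [sq]
          omega
        omega
      exact good_of_all fun d => Ns.subst ht1 (hg.ns _) (hg.ns _) ht2 ht3.le
        ((few B t ht1 (by omega) hB hQ2).1.ns d) ((few B (t + 1) (by omega) ht4 hB hQ2).1.ns d)
    · -- remove a cluster
      obtain ⟨C, hCS, hC1, hC2⟩ := exists_part (h := h) (A := (μ + 1).choose 2)
        (Nat.choose_pos (by omega)) S (fun y hy => (hS y hy).2) (by omega)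
      obtain ⟨S', rfl⟩ := Multiset.le_iff_exists_add.1 hCS
      have hC : ∀ y ∈ C, 1 ≤ y ∧ y ≤ h := fun y hy => hS y (Multiset.mem_add.2 (Or.inl hy))
      have hS' : ∀ y ∈ S', 1 ≤ y ∧ y ≤ h := fun y hy => hS y (Multiset.mem_add.2 (Or.inr hy))
      have hg : Good C := good_big (fun y hy => (hC y hy).2) (big C hC hC1)
      obtain ⟨t, ht1, ht2, ht3⟩ := exists_level hC1
      have ht4 : t + 1 ≤ μ + s := by
        by_contra hcon
        have h1 := choose_mono' (show μ + s ≤ t by omega)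
        have h2 := two_choose (μ + s)
        have h3 : (μ + s) * (μ + s + 1) = μ * (μ + 1) + 2 * (s * μ) + s * (s + 1) := by ring
        have h4 : s * 2 ≤ s * (s + 1) := Nat.mul_le_mul_left s (by omega)
        have h5 : 2 * s * (μ + 1) = 2 * (s * μ) + 2 * s := by ring
        rw [h5] at hh
        rw [h3] at h2
        generalize μ * (μ + 1) = Z at *
        generalize s * (s + 1) = Z2 at *
        generalize s * μ = Z3 at *
        omega
      have hco : co (C + S') = co C + co S' := co_add C S'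
      have h2 : 25000 * (h + 1) ^ 2 ≤ S'.sum := big S' hS' (by omega)
      have hcard : S'.card ≤ N := by
        have h3 : 0 < C.card := by
          rw [Multiset.card_pos]
          rintro rfl
          rw [co_zero] at hC1
          have : 0 < (μ + 1).choose 2 := Nat.choose_pos (by omega)
          omega
        rw [Multiset.card_add] at hN
        omega
      have step : ∀ x, μ ≤ x → x ≤ μ + s → Good (x ::ₘ (S' + B)) := by
        intro x hx1 hx2
        have h3 := ih S' (x ::ₘ B) hcard hS' (Or.inr h2) (fun y hy => by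
          rcases Multiset.mem_cons.1 hy with rfl | hy
          · exact hV2 y hx1 hx2
          · exact hB y hy) (by
          rw [Multiset.map_cons, Multiset.sum_cons]
          have h3 : h * (h + 1) ≤ μ * (μ + 1) := Nat.mul_le_mul hhμ (by omega)
          have h4 : μ * (μ + 1) ≤ 2 * x ^ 2 := by
            calc μ * (μ + 1) ≤ x * (2 * x) := Nat.mul_le_mul hx1 (by omega)
              _ = 2 * x ^ 2 := by ring
          omega)
        rwa [Multiset.add_cons] at h3
      rw [add_assoc]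
      exact good_of_all fun d => Ns.subst (by omega) (hg.ns _) (hg.ns _) ht2 ht3.le
        ((step t ht1 (by omega)).ns d) ((step (t + 1) (by omega) ht4).ns d)

theorem sum_single {n : ℕ} (s : Finset (Fin n)) (w : Fin n → ℕ) :
    ∑ i ∈ s, ({w i} : Multiset ℕ) = s.val.map w := by
  rw [← Multiset.sum_map_singleton (s.val.map w), Multiset.map_map]
  rfl

/-- the points with multiplicity `0` -/
theorem ms_split {n : ℕ} (w : Fin n → ℕ) (T : Finset (Fin n)) :
    ms w = ((T.filter fun i => w i ≠ 0).val.map w + (Tᶜ.filter fun i => w i ≠ 0).val.map w) +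
      (univ.filter (fun i => w i = 0)).card • {0} := by
  have h1 : ms w = ∑ i ∈ univ.filter (fun i => w i ≠ 0), ({w i} : Multiset ℕ) +
      ∑ i ∈ univ.filter (fun i => ¬ w i ≠ 0), ({w i} : Multiset ℕ) := by
    unfold ms
    exact (sum_filter_add_sum_filter_not univ (fun i => w i ≠ 0) _).symm
  have h2 : ∑ i ∈ univ.filter (fun i => ¬ w i ≠ 0), ({w i} : Multiset ℕ) =
      (univ.filter (fun i => w i = 0)).card • {0} := by
    rw [← sum_const]
    refine sum_congr ?_ fun i hi => ?_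
    · ext i
      simp
    · rw [(mem_filter.1 hi).2]
  have h3 : ∑ i ∈ univ.filter (fun i => w i ≠ 0), ({w i} : Multiset ℕ) =
      ∑ i ∈ T.filter (fun i => w i ≠ 0), ({w i} : Multiset ℕ) +
        ∑ i ∈ Tᶜ.filter (fun i => w i ≠ 0), ({w i} : Multiset ℕ) := by
    rw [sum_filter, sum_filter, sum_filter]
    exact (sum_add_sum_compl T _).symm
  rw [h1, h2, h3, sum_single, sum_single]

/-- groups with few levels, and arbitrary small multiplicities -/
theorem good_levels {k r s h μ : ℕ} (C : Fin k → Multiset ℕ) (t : Fin k → ℕ) (S : Multiset ℕ)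
    (ht1 : ∀ j, 1 ≤ t j) (ht2 : ∀ j, t j ≤ μ) (hr : (univ.image t).card ≤ r)
    (h0 : ∀ j, Ns (t j - 1) (C j)) (h1 : ∀ j, Ns (t j) (C j))
    (lo : ∀ j, (t j + 1).choose 2 ≤ co (C j)) (hi : ∀ j, co (C j) ≤ (t j + 2).choose 2)
    (hs1 : 1 ≤ s) (hs2 : s ≤ μ) (hh : h * (h + 1) ≤ 2 * s * (μ + 1))
    (hb : 25000 * (h + 1) ^ 3 ≤ μ * (μ + 1)) (hS : ∀ y ∈ S, 1 ≤ y ∧ y ≤ h)
    (hS2 : S = 0 ∨ 25000 * (h + 1) ^ 2 ≤ S.sum)
    (hQ : 500000 * (2 * r + s + 2) * (μ + 1) ^ 2 ≤ ∑ j, co (C j) + co S) : Good (∑ j, C j + S) := by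
  classical
  have hsq : ∀ j, co (C j) ≤ 3 * t j ^ 2 := by
    intro j
    refine (hi j).trans ?_
    have h2 := two_choose (t j + 1)
    have h3 := ht1 j
    have h4 : (t j + 1) * (t j + 1 + 1) = t j * t j + 3 * t j + 2 := by ring
    have h5 : t j ≤ t j * t j := Nat.le_mul_of_pos_left _ h3
    have h6 : (t j + 1 + 1).choose 2 = (t j + 2).choose 2 := rfl
    rw [sq]
    omega
  have hsum : ∑ j, co (C j) ≤ 3 * ∑ j, t j ^ 2 := by
    rw [mul_sum]
    exact sum_le_sum fun j _ => hsq j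
  refine good_of_all fun d => Ns_compose C t ht1 h0 h1 lo hi S fun x hx => ?_
  have hx1 : ∀ j, t j ≤ x j ∧ (x j = t j ∨ x j = t j + 1) := by
    intro j
    rcases hx j with ⟨h2, _⟩ | ⟨h2, _⟩ <;> omega
  have hg : Good (S + ms x) := by
    refine good_peel (r := 2 * r) hs1 hs2 (univ.image t ∪ univ.image (fun j => t j + 1) ∪
      Icc μ (μ + s)) ?_ (fun y hy => ?_) (fun y h1 h2 => mem_union_right _ (mem_Icc.2 ⟨h1, h2⟩))
      hh hb S.card S (ms x) le_rfl hS hS2 (fun y hy => ?_) ?_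
    · have h2 : (univ.image fun j => t j + 1).card ≤ r := by
        have h3 : (univ.image fun j => t j + 1) = (univ.image t).image (fun a => a + 1) := by
          rw [image_image]
          rfl
        rw [h3]
        exact card_image_le.trans hr
      have h4 := card_union_le (univ.image t ∪ univ.image (fun j => t j + 1)) (Icc μ (μ + s))
      have h5 := card_union_le (univ.image t) (univ.image (fun j => t j + 1))
      rw [Nat.card_Icc] at h4
      omega
    · rw [mem_union, mem_union, mem_image, mem_image, mem_Icc] at hy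
      rcases hy with (⟨j, _, rfl⟩ | ⟨j, _, rfl⟩) | hy
      · have := ht1 j
        have := ht2 j
        omega
      · have := ht1 j
        have := ht2 j
        omega
      · omega
    · rw [Pool.Agent.Y205.AV.ms_pos, Multiset.mem_map] at hy
      obtain ⟨j, _, rfl⟩ := hy
      refine mem_union_left _ ?_
      rcases (hx1 j).2 with h2 | h2
      · rw [h2]
        exact mem_union_left _ (mem_image_of_mem t (mem_univ j))
      · rw [h2]
        exact mem_union_right _ (mem_image_of_mem (fun j => t j + 1) (mem_univ j))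
    · have e1 : ((ms x).map fun y => y ^ 2).sum = ∑ j, x j ^ 2 := by
        rw [Pool.Agent.Y205.AV.ms_pos, Multiset.map_map]
        rfl
      have h2 : ∑ j, t j ^ 2 ≤ ∑ j, x j ^ 2 :=
        sum_le_sum fun j _ => Nat.pow_le_pow_left (hx1 j).1 2
      have h3 : 2 * (μ + 1) ^ 2 ≤ (2 * r + s + 2) * (μ + 1) ^ 2 := Nat.mul_le_mul_right _ (by omega)
      have h4 : 500000 * (2 * r + s + 2) * (μ + 1) ^ 2 =
          500000 * ((2 * r + s + 2) * (μ + 1) ^ 2) := by ring
      have h5 : 160000 * (2 * r + s + 2) * (μ + 1) ^ 2 =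
          160000 * ((2 * r + s + 2) * (μ + 1) ^ 2) := by ring
      rw [h4] at hQ
      rw [h5, e1]
      clear hh hb hr hS hS2 hs1 hs2
      generalize (2 * r + s + 2) * (μ + 1) ^ 2 = X at *
      generalize (μ + 1) ^ 2 = Y at *
      omega
  rw [add_comm]
  exact hg.ns d

/-- on `T` the multiplicities are arbitrary numbers `≤ h`, outside they take at most `r` values -/
theorem good_small {n r s h μ : ℕ} (w : Fin n → ℕ) (hw : ∀ i, w i ≤ μ) (T : Finset (Fin n))
    (hT : ∀ i ∈ T, w i ≤ h) (hr : (Tᶜ.image w).card ≤ r) (hs1 : 1 ≤ s) (hs2 : s ≤ μ)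
    (hh : h * (h + 1) ≤ 2 * s * (μ + 1)) (hb : 25000 * (h + 1) ^ 3 ≤ μ * (μ + 1))
    (hS : 25000 * (h + 1) ^ 2 ≤ ∑ i ∈ T, w i)
    (hQ : 650000 * (r + s + 2) * (μ + 1) ^ 2 ≤ ∑ i, w i ^ 2)
    (p : ℕ) : Good (ms w + p • {1}) := by
  classical
  rw [ms_split w T]
  obtain ⟨S, hSd⟩ : ∃ S, S = (T.filter fun i => w i ≠ 0).val.map w := ⟨_, rfl⟩
  obtain ⟨B, hBd⟩ : ∃ B, B = (Tᶜ.filter fun i => w i ≠ 0).val.map w := ⟨_, rfl⟩
  rw [← hSd, ← hBd]
  have hSm : ∀ y ∈ S, 1 ≤ y ∧ y ≤ h := by
    intro y hy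
    rw [hSd, Multiset.mem_map] at hy
    obtain ⟨i, hi, rfl⟩ := hy
    rw [mem_val] at hi
    have h1 := (mem_filter.1 hi).2
    have h2 := hT i (mem_filter.1 hi).1
    omega
  have hS1 : S.sum = ∑ i ∈ T, w i := by
    rw [hSd]
    exact sum_filter_ne_zero _
  have hB1 : (B.map fun y => y ^ 2).sum = ∑ i ∈ Tᶜ, w i ^ 2 := by
    rw [hBd, Multiset.map_map]
    change ∑ i ∈ Tᶜ.filter (fun i => w i ≠ 0), w i ^ 2 = _
    refine sum_subset (filter_subset _ _) fun i hi1 hi2 => ?_
    have : w i = 0 := by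
      by_contra hcon
      exact hi2 (mem_filter.2 ⟨hi1, hcon⟩)
    rw [this]
    rfl
  have hS3 : (S.map fun y => y ^ 2).sum = ∑ i ∈ T, w i ^ 2 := by
    rw [hSd, Multiset.map_map]
    change ∑ i ∈ T.filter (fun i => w i ≠ 0), w i ^ 2 = _
    refine sum_subset (filter_subset _ _) fun i hi1 hi2 => ?_
    have : w i = 0 := by
      by_contra hcon
      exact hi2 (mem_filter.2 ⟨hi1, hcon⟩)
    rw [this]
    rfl
  have hsum : ∑ i, w i ^ 2 = ∑ i ∈ T, w i ^ 2 + ∑ i ∈ Tᶜ, w i ^ 2 := (sum_add_sum_compl T _).symm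
  have hS4 := sq_le_co S
  have hBm : ∀ y ∈ B, y ∈ (Tᶜ.filter fun i => w i ≠ 0).image w ∪ Icc μ (μ + s) := by
    intro y hy
    rw [hBd, Multiset.mem_map] at hy
    obtain ⟨i, hi, rfl⟩ := hy
    exact mem_union_left _ (mem_image_of_mem w hi)
  have hg : Good (S + B) := by
    refine good_peel (r := r) hs1 hs2 ((Tᶜ.filter fun i => w i ≠ 0).image w ∪ Icc μ (μ + s)) ?_
      (fun y hy => ?_) (fun y h1 h2 => mem_union_right _ (mem_Icc.2 ⟨h1, h2⟩)) hh hb S.card S B
      le_rfl hSm (Or.inr (by rw [hS1]; exact hS)) hBm (by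
        rw [hB1]
        have h3 : 2 * (μ + 1) ^ 2 ≤ (r + s + 2) * (μ + 1) ^ 2 := Nat.mul_le_mul_right _ (by omega)
        have h4 : 650000 * (r + s + 2) * (μ + 1) ^ 2 = 650000 * ((r + s + 2) * (μ + 1) ^ 2) := by ring
        have h5 : 160000 * (r + s + 2) * (μ + 1) ^ 2 = 160000 * ((r + s + 2) * (μ + 1) ^ 2) := by ring
        rw [h4, hsum] at hQ
        rw [hS3] at hS4
        rw [h5]
        generalize (r + s + 2) * (μ + 1) ^ 2 = X at *
        generalize (μ + 1) ^ 2 = Y at *
        omega)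
    · refine (card_union_le _ _).trans ?_
      have h1 : ((Tᶜ.filter fun i => w i ≠ 0).image w).card ≤ (Tᶜ.image w).card :=
        card_le_card (image_subset_image (filter_subset _ _))
      rw [Nat.card_Icc]
      omega
    · rcases mem_union.1 hy with hy | hy
      · obtain ⟨i, hi, rfl⟩ := mem_image.1 hy
        have h1 := (mem_filter.1 hi).2
        have h2 := hw i
        omega
      · rw [mem_Icc] at hy
        omega
  exact good_of_all fun d => Ns.simple (Ns_zeros.2 (hg.ns d)) p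

end Pool.Agent.W71.NN
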