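import Pool.Agent.H15.G.R_pool_sql_team_seeded_9f66d723.W71.NN.Few

/-! Near-uniform large multiplicities, arbitrary small ones and many simple points. -/

set_option autoImplicit false

namespace Pool.Agent.W71.NN

open Finset Pool.Agent.TH176.Nag Pool.Agent.TH603.Sur Pool.Agent.TH641.UM Pool.Agent.TH2.NU
open Pool.Agent.TH545.SD

theorem good_simple {p : ℕ} (hp : 1 ≤ p) : Good (p • {1}) := by
  obtain ⟨q, rfl⟩ : ∃ q, p = q + 1 := ⟨p - 1, by omega⟩
  have e : (q + 1) • ({1} : Multiset ℕ) = {1} + q • {1} := by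
    rw [add_smul, one_smul, add_comm]
  rw [e]
  exact good_of_all fun d => Ns.simple ((good_point 1).ns d) q

/-- simple points fill up the groups -/
theorem good_fill0 {M : ℕ} (hM : 1 ≤ M) : ∀ (N p : ℕ) (B : Multiset ℕ), p ≤ N →
    (∀ y ∈ B, y = M ∨ y = M + 1) → 96 * (M + 2).choose 2 ≤ B.card * (M + 2).choose 2 + p →
    Good (B + p • {1}) := by
  have hpos : 0 < (M + 1).choose 2 := Nat.choose_pos (by omega)
  have hle : (M + 1).choose 2 ≤ (M + 2).choose 2 := Nat.choose_le_choose 2 (by omega)
  intro N
  induction N with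
  | zero =>
    intro p B hp hB hK
    have hp0 : p = 0 := by omega
    subst hp0
    have h : 96 ≤ B.card := by
      by_contra hcon
      nlinarith
    exact good_of_all fun d => Ns.simple ((good_near h hM hB).ns d) 0
  | succ N ih =>
    intro p B hp hB hK
    by_cases h : 96 ≤ B.card
    · exact good_of_all fun d => Ns.simple ((good_near h hM hB).ns d) p
    · have h1 : (M + 2).choose 2 ≤ p := by nlinarith
      obtain ⟨p', rfl⟩ : ∃ p', p = (M + 1).choose 2 + p' := ⟨p - (M + 1).choose 2, by omega⟩
      have h2 := ih p' (M ::ₘ B) (by omega) (fun y hy => by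
        rcases Multiset.mem_cons.1 hy with rfl | hy
        · exact Or.inl rfl
        · exact hB y hy) (by
        rw [Multiset.card_cons]
        nlinarith)
      have e1 : B + ((M + 1).choose 2 + p') • ({1} : Multiset ℕ) =
          (M + 1).choose 2 • {1} + (B + p' • {1}) := by
        rw [add_smul]
        abel
      rw [e1]
      refine good_of_all fun d => Ns.exact hM ((good_simple hpos).ns _) (co_ones _) ?_
      have h3 := h2.ns d
      rwa [Multiset.cons_add] at h3

/-- near-uniform large multiplicities, arbitrary small ones and many simple points -/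
theorem good_fill {M h : ℕ} (h1 : 1 ≤ h) (hh : h * (h + 1) ≤ 2 * (M + 1))
    (hb : 25000 * (h + 1) ^ 3 ≤ M * (M + 1)) :
    ∀ (N : ℕ) (S B : Multiset ℕ) (p : ℕ), S.card ≤ N → (∀ y ∈ S, 1 ≤ y ∧ y ≤ h) →
      (∀ y ∈ B, y = M ∨ y = M + 1) → (M + 1).choose 2 ≤ p →
      96 * (M + 2).choose 2 ≤ B.card * (M + 2).choose 2 + co S + p → Good (S + B + p • {1}) := by
  have hM : 1 ≤ M := by
    by_contra hcon
    have : M = 0 := by omega
    subst this
    have : 0 < 25000 * (h + 1) ^ 3 := by positivity
    omega
  have hpos : 0 < (M + 1).choose 2 := Nat.choose_pos (by omega)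
  have hch : 2 * (h + 1).choose 2 = h * (h + 1) := two_choose h
  have hcM : 2 * (M + 1).choose 2 = M * (M + 1) := two_choose M
  have e2 : (M + 2).choose 2 = (M + 1).choose 2 + (M + 1) := by
    rw [Nat.choose_succ_succ' (M + 1) 1, Nat.choose_one_right]
    ring
  have big : ∀ C : Multiset ℕ, (∀ y ∈ C, 1 ≤ y ∧ y ≤ h) → (M + 1).choose 2 ≤ co C → Good C := by
    intro C hC h1
    refine good_big (fun y hy => (hC y hy).2) ?_
    have h2 := co_le_sum (h := h) C fun y hy => (hC y hy).2
    have h3 : 25000 * (h + 1) ^ 3 ≤ (h + 1) * C.sum := by omega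
    have h4 : (h + 1) * (25000 * (h + 1) ^ 2) ≤ (h + 1) * C.sum := by
      calc (h + 1) * (25000 * (h + 1) ^ 2) = 25000 * (h + 1) ^ 3 := by ring
        _ ≤ _ := h3
    exact Nat.le_of_mul_le_mul_left h4 (Nat.succ_pos h)
  intro N
  induction N with
  | zero =>
    intro S B p hN hS hB hp hK
    have : S = 0 := Multiset.card_eq_zero.1 (by omega)
    subst this
    rw [zero_add]
    exact good_fill0 hM p p B le_rfl hB (by rw [co_zero] at hK; omega)
  | succ N ih =>
    intro S B p hN hS hB hp hK
    by_cases hc : co S < (M + 1).choose 2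
    · -- the last group is filled up by simple points
      obtain ⟨q, hq⟩ := Nat.exists_eq_add_of_le hc.le
      obtain ⟨p', rfl⟩ : ∃ p', p = q + p' := ⟨p - q, by omega⟩
      have hC : co (S + q • {1}) = (M + 1).choose 2 := by rw [co_add, co_ones, hq]
      have hg : Good (S + q • {1}) := by
        refine big _ (fun y hy => ?_) hC.ge
        rcases Multiset.mem_add.1 hy with hy | hy
        · exact hS y hy
        · have h3 : y = 1 := Multiset.mem_singleton.1 (Multiset.mem_of_mem_nsmul hy)
          omega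
      have h2 := good_fill0 hM p' p' (M ::ₘ B) le_rfl (fun y hy => by
        rcases Multiset.mem_cons.1 hy with rfl | hy
        · exact Or.inl rfl
        · exact hB y hy) (by
        rw [Multiset.card_cons, add_mul]
        omega)
      have e1 : S + B + (q + p') • ({1} : Multiset ℕ) = (S + q • {1}) + (B + p' • {1}) := by
        rw [add_smul]
        abel
      rw [e1]
      refine good_of_all fun d => Ns.exact hM (hg.ns _) hC ?_
      have h3 := h2.ns d
      rwa [Multiset.cons_add] at h3
    · -- remove a group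
      obtain ⟨C, hCS, hC1, hC2⟩ := exists_part (h := h) hpos S (fun y hy => (hS y hy).2)
        (by omega)
      obtain ⟨S', rfl⟩ := Multiset.le_iff_exists_add.1 hCS
      have hC : ∀ y ∈ C, 1 ≤ y ∧ y ≤ h := fun y hy => hS y (Multiset.mem_add.2 (Or.inl hy))
      have hS' : ∀ y ∈ S', 1 ≤ y ∧ y ≤ h := fun y hy => hS y (Multiset.mem_add.2 (Or.inr hy))
      have hg : Good C := big C hC hC1
      have hco : co (C + S') = co C + co S' := co_add C S'
      have hcard : S'.card ≤ N := by
        have h3 : 0 < C.card := by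
          rw [Multiset.card_pos]
          rintro rfl
          rw [co_zero] at hC1
          omega
        rw [Multiset.card_add] at hN
        omega
      have step : ∀ x, x = M ∨ x = M + 1 → Good (x ::ₘ (S' + B + p • {1})) := by
        intro x hx
        have h3 := ih S' (x ::ₘ B) p hcard hS' (fun y hy => by
          rcases Multiset.mem_cons.1 hy with rfl | hy
          · exact hx
          · exact hB y hy) hp (by
          rw [Multiset.card_cons, add_mul]
          omega)
        rwa [Multiset.add_cons, Multiset.cons_add] at h3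
      have e1 : C + S' + B + p • ({1} : Multiset ℕ) = C + (S' + B + p • {1}) := by abel
      rw [e1]
      exact good_of_all fun d => Ns.subst hM (hg.ns _) (hg.ns _) hC1 (by omega)
        ((step M (Or.inl rfl)).ns d) ((step (M + 1) (Or.inr rfl)).ns d)

/-- groups with nearly the same number of conditions, arbitrary small multiplicities and many simple
points -/
theorem good_fill_groups {r M h p : ℕ} (C : Fin r → Multiset ℕ) (S : Multiset ℕ) (h1 : 1 ≤ h)
    (hh : h * (h + 1) ≤ 2 * (M + 1)) (hb : 25000 * (h + 1) ^ 3 ≤ M * (M + 1))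
    (hC : ∀ j t, (t + 1).choose 2 ≤ co (C j) → co (C j) < (t + 2).choose 2 →
      Ns (t - 1) (C j) ∧ Ns t (C j))
    (lo : ∀ j, (M + 1).choose 2 ≤ co (C j)) (hi : ∀ j, co (C j) ≤ (M + 2).choose 2)
    (hS : ∀ y ∈ S, 1 ≤ y ∧ y ≤ h) (hp : (M + 1).choose 2 ≤ p)
    (hK : 96 * (M + 2).choose 2 ≤ ∑ j, co (C j) + co S + p) : Good (∑ j, C j + (S + p • {1})) := by
  have hM : 1 ≤ M := by
    by_contra hcon
    have : M = 0 := by omega
    subst this
    have : 0 < 25000 * (h + 1) ^ 3 := by positivity
    omega
  have hsum : ∑ j, co (C j) ≤ r * (M + 2).choose 2 := by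
    have h2 := sum_le_card_nsmul univ (fun j => co (C j)) _ fun j _ => hi j
    rwa [card_univ, Fintype.card_fin, smul_eq_mul] at h2
  choose t ht1 ht2 ht3 using fun j => exists_level (lo j)
  refine good_of_all fun d => Ns_compose C t (fun j => by have := ht1 j; omega)
    (fun j => (hC j _ (ht2 j) (ht3 j)).1) (fun j => (hC j _ (ht2 j) (ht3 j)).2) ht2
    (fun j => (ht3 j).le) _ fun x hx => ?_
  have h2 := good_fill h1 hh hb S.card S (ms x) p le_rfl hS (fun y hy => by
    rw [Pool.Agent.Y205.AV.ms_pos, Multiset.mem_map] at hy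
    obtain ⟨j, _, rfl⟩ := hy
    have g1 := ht1 j
    have g2 := ht2 j
    have g3 := hi j
    rcases hx j with ⟨h1, -⟩ | ⟨h1, h2⟩
    · by_contra hcon
      have g4 := choose_lt' (show M + 1 < t j by omega)
      have g5 : (M + 1 + 1).choose 2 = (M + 2).choose 2 := rfl
      omega
    · by_contra hcon
      have g4 := choose_mono' (show M + 1 ≤ t j by omega)
      have g5 : (M + 1 + 1).choose 2 = (M + 2).choose 2 := rfl
      omega) hp (by
    rw [ms_card, Fintype.card_fin]
    omega)
  have e1 : ms x + (S + p • ({1} : Multiset ℕ)) = S + ms x + p • {1} := by abel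
  rw [e1]
  exact h2.ns d

/-- the nonzero multiplicities -/
theorem ms_nonzero {q : ℕ} (u : Fin q → ℕ) : ∃ S : Multiset ℕ,
    ms u = S + (univ.filter fun i => u i = 0).card • {0} ∧
      (∀ y ∈ S, ∃ i, u i = y ∧ y ≠ 0) ∧ co S = ∑ i, (u i + 1).choose 2 ∧ S.sum = ∑ i, u i := by
  classical
  have h1 := ms_split u univ
  rw [compl_univ, filter_empty] at h1
  refine ⟨(univ.filter fun i => u i ≠ 0).val.map u, ?_, fun y hy => ?_, ?_, ?_⟩
  · rw [h1]
    simp
  · rw [Multiset.mem_map] at hy
    obtain ⟨i, hi, rfl⟩ := hy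
    rw [mem_val] at hi
    exact ⟨i, rfl, (mem_filter.1 hi).2⟩
  · unfold co
    rw [Multiset.map_map]
    change ∑ i ∈ univ.filter (fun i => u i ≠ 0), (u i + 1).choose 2 = _
    refine sum_subset (filter_subset _ _) fun i hi1 hi2 => ?_
    have : u i = 0 := by
      by_contra hcon
      exact hi2 (mem_filter.2 ⟨hi1, hcon⟩)
    rw [this]
    rfl
  · exact sum_filter_ne_zero _


theorem co_map {n : ℕ} (T : Finset (Fin n)) (w : Fin n → ℕ) :
    co (T.val.map w) = ∑ i ∈ T, (w i + 1).choose 2 := by
  unfold co
  rw [Multiset.map_map]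
  rfl

end Pool.Agent.W71.NN
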