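import Pool.Agent.H15.G.R_pool_sql_team_seeded_9f66d723.W71.NN.Comp
import Pool.Agent.H15.G.R_seed8.Y205.MD.NearAll
import Pool.Agent.H15.G.R_seed8.TH759.EV.Pow

/-! Groups of points: the base systems. -/

set_option autoImplicit false

namespace Pool.Agent.W71.NN

open Finset Pool.Agent.TH176.Nag Pool.Agent.TH603.Sur Pool.Agent.TH641.UM Pool.Agent.TH2.NU
open Pool.Agent.TH545.SD

/-- multiplicities in an interval -/
theorem good_interval {m s : ℕ} {v : Multiset ℕ} (hm : 1 ≤ m) (hv : ∀ y ∈ v, m ≤ y ∧ y ≤ m + s)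
    (h1 : 1000 * ((s : ℝ) + 1) ≤ √(v.card : ℝ))
    (h2 : 1000000 * ((s : ℝ) + 1) ^ 3 ≤ m * √(v.card : ℝ)) : Good v := by
  obtain ⟨k, u, rfl⟩ := Pool.Agent.TH545.SD.exists_fam v
  rw [ms_card, Fintype.card_fin] at h1 h2
  obtain ⟨F, hF, hF'⟩ := Pool.Agent.Y205.MD.near_all ℚ (w := u) hm
    (fun i => (hv _ (mem_ms u i)).1) (fun i => (hv _ (mem_ms u i)).2) h1 h2
  exact ⟨Gd_of_expDim fun d => ⟨F, hF, fun P hP => hF' P hP d⟩⟩

/-- `k` points with multiplicities in `[m, m + s]`: the known cases -/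
def Base (k m s : ℕ) : Prop :=
  (s ≤ 1 ∧ (96 ≤ k ∨ ∃ j, k = 4 ^ j ∨ k = 9 * 4 ^ j ∨ k = 13 * 4 ^ j)) ∨
  (s = 0 ∧ (k = 21 ∨ 37 ≤ k)) ∨
  (1000 * ((s : ℝ) + 1) ≤ √(k : ℝ) ∧ 1000000 * ((s : ℝ) + 1) ^ 3 ≤ m * √(k : ℝ))

theorem good_point (b : ℕ) : Good ({b} : Multiset ℕ) := good_of_all fun d => ⟨GD.point d b⟩

theorem nu_all {k j : ℕ} (h : k = 4 ^ (j + 1) ∨ k = 9 * 4 ^ j ∨ k = 13 * 4 ^ j) :
    Pool.Agent.TH759.EV.NU k := by
  rcases h with rfl | rfl | rfl
  · have h1 := Pool.Agent.TH759.EV.NU_pow Pool.Agent.TH759.EV.NU_four j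
    rwa [show 4 * 4 ^ j = 4 ^ (j + 1) by ring] at h1
  · exact Pool.Agent.TH759.EV.NU_pow Pool.Agent.TH759.EV.NU_nine j
  · exact Pool.Agent.TH759.EV.NU_pow Pool.Agent.TH759.EV.NU_thirteen j

theorem good_nu {k m : ℕ} (h : Pool.Agent.TH759.EV.NU k) {v : Multiset ℕ} (hk : v.card = k) (hm : 1 ≤ m)
    (hv : ∀ a ∈ v, a = m ∨ a = m + 1) : Good v := by
  obtain ⟨s, u, rfl⟩ := Pool.Agent.TH545.SD.exists_fam v
  rw [ms_card, Fintype.card_fin] at hk
  subst hk
  obtain ⟨F, hF, hF'⟩ := Pool.Agent.TH759.EV.expDim_of_NU h hm (w := u) (fun i => hv _ (mem_ms u i))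
  exact ⟨Gd_of_expDim fun d => ⟨F, hF, fun P hP => hF' P hP d⟩⟩

theorem good_base {m s : ℕ} {v : Multiset ℕ} (hm : 1 ≤ m) (hv : ∀ y ∈ v, m ≤ y ∧ y ≤ m + s)
    (h : Base v.card m s) : Good v := by
  rcases h with ⟨hs, h⟩ | ⟨rfl, h⟩ | ⟨h1, h2⟩
  · have hv' : ∀ y ∈ v, y = m ∨ y = m + 1 := fun y hy => by have := hv y hy; omega
    rcases h with h | ⟨j, h⟩
    · exact good_near h hm hv'
    · by_cases h1 : v.card = 1
      · obtain ⟨b, rfl⟩ := Multiset.card_eq_one.1 h1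
        exact good_point b
      · have h2 : ∃ i, v.card = 4 ^ (i + 1) ∨ v.card = 9 * 4 ^ i ∨ v.card = 13 * 4 ^ i := by
          rcases h with h | h
          · rcases j with _ | j
            · exact absurd h h1
            · exact ⟨j, Or.inl h⟩
          · exact ⟨j, Or.inr h⟩
        obtain ⟨i, hi⟩ := h2
        exact good_nu (nu_all hi) rfl hm hv'
  · have hv' : v = v.card • {m} := by
      rw [Multiset.nsmul_singleton, Multiset.eq_replicate]
      exact ⟨rfl, fun y hy => by have := hv y hy; omega⟩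
    rw [hv']
    exact good_of_all fun d => ⟨GD.uniform hm (by omega)⟩
  · exact good_interval hm hv h1 h2

theorem choose_mono' {a b : ℕ} (h : a ≤ b) : (a + 1).choose 2 ≤ (b + 1).choose 2 :=
  Nat.choose_le_choose 2 (by omega)

theorem choose_lt' {a b : ℕ} (h : a < b) : (a + 1).choose 2 < (b + 1).choose 2 := by
  have e2 : (a + 2).choose 2 = (a + 1).choose 2 + (a + 1) := by
    rw [Nat.choose_succ_succ' (a + 1) 1, Nat.choose_one_right]
    ring
  have h1 : (a + 2).choose 2 ≤ (b + 1).choose 2 := Nat.choose_le_choose 2 (by omega)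
  omega

theorem le_choose' (a : ℕ) : a ≤ (a + 1).choose 2 := by
  induction a with
  | zero => simp
  | succ a ih =>
    have e2 : (a + 2).choose 2 = (a + 1).choose 2 + (a + 1) := by
      rw [Nat.choose_succ_succ' (a + 1) 1, Nat.choose_one_right]
      ring
    have e3 : (a + 1 + 1).choose 2 = (a + 2).choose 2 := rfl
    omega

/-- the level of a number of conditions -/
theorem exists_level {m c : ℕ} (h : (m + 1).choose 2 ≤ c) :
    ∃ t, m ≤ t ∧ (t + 1).choose 2 ≤ c ∧ c < (t + 2).choose 2 := by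
  classical
  obtain ⟨t, ht⟩ : ∃ t, t = Nat.findGreatest (fun t => (t + 1).choose 2 ≤ c) (c + m) := ⟨_, rfl⟩
  have h1 : (t + 1).choose 2 ≤ c := by
    rw [ht]
    exact Nat.findGreatest_spec (P := fun t => (t + 1).choose 2 ≤ c) (Nat.le_add_left m c) h
  have h2 : m ≤ t := by
    rw [ht]
    exact Nat.le_findGreatest (Nat.le_add_left m c) h
  refine ⟨t, h2, h1, ?_⟩
  by_contra hcon
  push Not at hcon
  have h3 : t + 1 ≤ c := le_trans (le_choose' (t + 1)) hcon
  have h4 := Nat.le_findGreatest (P := fun t => (t + 1).choose 2 ≤ c) (n := c + m) (m := t + 1)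
    (by omega) hcon
  omega

/-- **Groups**: systems of nearly the same number of conditions, non-special next to their critical
degrees. -/
theorem good_groups {r m s : ℕ} (C : Fin r → Multiset ℕ) (hm : 1 ≤ m) (hB : Base r m s)
    (hC : ∀ j t, (t + 1).choose 2 ≤ co (C j) → co (C j) < (t + 2).choose 2 →
      Ns (t - 1) (C j) ∧ Ns t (C j)) (lo : ∀ j, (m + 1).choose 2 ≤ co (C j))
    (hi : ∀ j, co (C j) ≤ (m + s + 1).choose 2) (p : ℕ) : Good (∑ j, C j + p • {1}) := by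
  choose t ht1 ht2 ht3 using fun j => exists_level (lo j)
  refine good_of_all fun d => ?_
  refine Ns_compose C t (fun j => by have := ht1 j; omega) (fun j => (hC j _ (ht2 j) (ht3 j)).1)
    (fun j => (hC j _ (ht2 j) (ht3 j)).2) ht2 (fun j => (ht3 j).le) _ fun x hx => ?_
  refine Ns.simple (Good.ns (good_base hm (s := s) (fun y hy => ?_) ?_) d) p
  · obtain ⟨j, -, hj⟩ : ∃ j ∈ univ, y ∈ ({x j} : Multiset ℕ) := by
      unfold ms at hy
      rwa [Multiset.mem_sum] at hy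
    rw [Multiset.mem_singleton] at hj
    subst hj
    have g1 := ht1 j
    have g2 := ht2 j
    have g3 := hi j
    rcases hx j with ⟨h1, -⟩ | ⟨h1, h2⟩
    · rw [h1]
      refine ⟨g1, ?_⟩
      by_contra hcon
      have g4 := choose_lt' (show m + s < t j by omega)
      omega
    · rw [h1]
      refine ⟨by omega, ?_⟩
      by_contra hcon
      have g4 := choose_mono' (show m + s ≤ t j by omega)
      omega
  · rw [ms_card, Fintype.card_fin]
    exact hB

end Pool.Agent.W71.NN
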