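import Pool.Agent.H15.G.R_pool_sql_team_seeded_9f66d723.W71.NN.Crit
import Pool.Agent.H15.G.R_seed8.TH2.NU.Near4

/-! The sign theorem for vectors of numbers `μ`, `μ + 1` on `4 a + c` points. -/

namespace Pool.Agent.W71.NN

open Finset Pool.Agent.TH176.Nag Pool.Agent.TH603.Sur Pool.Agent.TH763.DB Module Pool.Agent.TH641.UM
open Pool.Agent.TH2.NU Pool.Agent.TH760.EN

theorem ms_Vc {n a c μ m b x0 x1 x2 : ℕ} {w : Fin n → ℕ} (hw : ∀ i, w i = μ ∨ w i = μ + 1)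
    (hn : n = 4 * a + c) (hm : m = μ ∨ m = μ + 1) (hb : b = 2 * μ ∨ b = 2 * μ + 1)
    (hx : x0 + x1 + x2 = a) (hW : ∑ i, w i + x0 = a * (2 * b + 1) + x2 + c * m) :
    ms w = x0 • q4 b + (x1 • r4 (b + 1) + x2 • q4 (b + 1)) + c • {m} := by
  have e : ms (Sum.elim (Sum.elim (fun p : Fin x0 × (Fin 2 × Fin 2) => qv b p.2)
      (Sum.elim (fun p : Fin x1 × (Fin 2 × Fin 2) => rv (b + 1) p.2)
        (fun p : Fin x2 × (Fin 2 × Fin 2) => qv (b + 1) p.2))) (fun _ : Fin c => m)) =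
      x0 • q4 b + (x1 • r4 (b + 1) + x2 • q4 (b + 1)) + c • {m} := by
    rw [ms_sum, ms_sum, ms_sum, ms_prod, ms_prod, ms_prod, ms_fin]
    rfl
  rw [← e]
  refine ms_eq hw ?_ ?_ ?_
  · rintro ((⟨-, ⟨a, c⟩⟩ | ⟨-, ⟨a, c⟩⟩ | ⟨-, ⟨a, c⟩⟩) | -)
    · simp only [Sum.elim_inl, qv]
      have := a.2
      omega
    · simp only [Sum.elim_inl, Sum.elim_inr, rv]
      have := a.2
      have := c.2
      omega
    · simp only [Sum.elim_inr, Sum.elim_inl, qv]
      have := a.2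
      omega
    · simp only [Sum.elim_inr]
      omega
  · rw [Fintype.card_sum, Fintype.card_sum, Fintype.card_sum]
    simp only [Fintype.card_prod, Fintype.card_fin]
    omega
  · rw [Fintype.sum_sum_type, Fintype.sum_sum_type, Fintype.sum_sum_type]
    simp only [Sum.elim_inl, Sum.elim_inr, sum_const, card_univ, Fintype.card_fin, smul_eq_mul]
    rw [sum_prod_val, sum_prod_val, sum_prod_val, sum_qv_val, sum_rv_val, sum_qv_val]
    have h1 : x0 * (2 * b) + (x1 * (2 * b + 1) + x2 * (2 * (b + 1))) + x0 = a * (2 * b + 1) + x2 := by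
      rw [← hx]
      ring
    omega

/-- the data which depend on `n` only -/
structure Dn (a c n σ t : ℕ) : Prop where
  hE : HE c
  hS : HS c
  hn : n = 4 * a + c
  hσ : n = 4 * σ + t
  t1 : 1 ≤ t
  t4 : t ≤ 4
  hc : c ≤ 5
  ha : 23 ≤ a
  hroom : 3 / 2 * lE c n t + 7.5 < a + 1

theorem Dn.dat {a c n σ t m b : ℕ} (D : Dn a c n σ t) (hB : 77 * a ≤ 20 * (b + 1))
    (hm1 : 2 * m ≤ b + 1) (hm2 : b ≤ 2 * m + 1) : Dat a c n σ t m b :=
  ⟨D.hE, D.hS, D.hn, D.hσ, D.t1, D.t4, D.hc, D.ha, hB, hm1, hm2⟩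

/-- the sign theorem in the degrees next to the critical one -/
theorem sgn_near {a c n σ t μ d : ℕ} (D : Dn a c n σ t) {w : Fin n → ℕ}
    (hw : ∀ i, w i = μ ∨ w i = μ + 1) (hB : 77 * a ≤ 20 * (2 * μ + 1))
    (hcrit : |√(n : ℝ) * (2 * d + 3) - (n + 2 * ((∑ i, w i : ℕ) : ℝ))| ≤ 13 / 5) :
    ((d + 2).choose 2 ≤ cond w → Emp w (TZ d)) ∧ (cond w ≤ (d + 2).choose 2 → Sur w (TZ d)) := by
  have hn := D.hn
  have hn' : (n : ℝ) = 4 * a + c := by rw [hn]; push_cast; ring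
  -- the sum
  have hlow : n * μ ≤ ∑ i, w i := by
    have h1 : ∑ _i : Fin n, μ ≤ ∑ i, w i := sum_le_sum fun i _ => by
      rcases hw i with h | h <;> omega
    simpa using h1
  have hup : ∑ i, w i ≤ n * μ + n := by
    have h1 : ∑ i, w i ≤ ∑ _i : Fin n, (μ + 1) := sum_le_sum fun i _ => by
      rcases hw i with h | h <;> omega
    simp only [sum_const, card_univ, Fintype.card_fin, smul_eq_mul] at h1
    linarith
  obtain ⟨P, hP⟩ : ∃ P, P = a * μ := ⟨_, rfl⟩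
  obtain ⟨Q, hQ⟩ : ∃ Q, Q = c * μ := ⟨_, rfl⟩
  have enμ : n * μ = 4 * P + Q := by rw [hn, hP, hQ]; ring
  rw [enμ] at hlow hup
  obtain ⟨W, hW⟩ : ∃ W, W = ∑ i, w i := ⟨_, rfl⟩
  rw [← hW] at hlow hup hcrit
  obtain ⟨m, b, hm, hb, hm1, hm2, hb1, hb2⟩ : ∃ m b : ℕ, (m = μ ∨ m = μ + 1) ∧
      (b = 2 * μ ∨ b = 2 * μ + 1) ∧ 2 * m ≤ b + 1 ∧ b ≤ 2 * m + 1 ∧
      a * (2 * b + 1) + c * m ≤ W + a ∧ W ≤ a * (2 * b + 1) + c * m + a := by
    rcases le_or_gt W (4 * P + Q + 2 * a) with h | h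
    · refine ⟨μ, 2 * μ, Or.inl rfl, Or.inl rfl, by omega, by omega, ?_, ?_⟩
      · have e : a * (2 * (2 * μ) + 1) + c * μ = 4 * P + a + Q := by rw [hP, hQ]; ring
        omega
      · have e : a * (2 * (2 * μ) + 1) + c * μ = 4 * P + a + Q := by rw [hP, hQ]; ring
        omega
    · rcases le_or_gt W (4 * P + Q + 2 * a + c) with h' | h'
      · have hc := D.hc
        have ha := D.ha
        refine ⟨μ, 2 * μ + 1, Or.inl rfl, Or.inr rfl, by omega, by omega, ?_, ?_⟩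
        · have e : a * (2 * (2 * μ + 1) + 1) + c * μ = 4 * P + 3 * a + Q := by rw [hP, hQ]; ring
          omega
        · have e : a * (2 * (2 * μ + 1) + 1) + c * μ = 4 * P + 3 * a + Q := by rw [hP, hQ]; ring
          omega
      · refine ⟨μ + 1, 2 * μ + 1, Or.inr rfl, Or.inr rfl, by omega, by omega, ?_, ?_⟩
        · have e : a * (2 * (2 * μ + 1) + 1) + c * (μ + 1) = 4 * P + 3 * a + Q + c := by
            rw [hP, hQ]; ring
          omega
        · have e : a * (2 * (2 * μ + 1) + 1) + c * (μ + 1) = 4 * P + 3 * a + Q + c := by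
            rw [hP, hQ]; ring
          omega
  obtain ⟨δ, hδ⟩ : ∃ δ : ℤ, δ = (W : ℤ) - ((a * (2 * b + 1) + c * m : ℕ) : ℤ) := ⟨_, rfl⟩
  have hδR : (δ : ℝ) = (W : ℝ) - (a * (2 * b + 1) + c * m) := by
    rw [hδ]
    push_cast
    ring
  obtain ⟨x0, x1, x2, hx, hx', hsg⟩ := sgn_allc (D.dat (m := m) (b := b) (by omega) hm1 hm2)
    (d := d) (δ := δ) (by rw [abs_le]; omega) D.hroom (by
      have e : yy a c n m b d - 2 * (δ : ℝ) = √(n : ℝ) * (2 * d + 3) - (n + 2 * (W : ℝ)) := by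
        unfold yy
        rw [hδR, hn']
        push_cast
        ring
      rw [e]
      exact hcrit)
  exact Sgn_of_ms (ms_Vc hw hn hm hb hx (by omega)) hsg

end Pool.Agent.W71.NN
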